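import Mathlib
import Pool.Agent.V1152.SMIA
import Pool.Agent.V1152.SMIG

set_option autoImplicit false

/-!
# Ergodic averages for finitely many and for all times, from decay of correlations for finitely
many times
-/

namespace Pool.Agent.N15.SM

open MeasureTheory Function Finset
open Pool.Agent.V11103 (ergAv maximal)
open Pool.Agent.V1152.SMI (ergAv_meas' ergAv_shift sq_setIntegral_le)

variable {X : Type*} [MeasurableSpace X] {μ : Measure X}

theorem int_comp {T : X → X} (hT : MeasurePreserving T μ μ) (k : ℕ) {g : X → ℝ}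
    (hg : Measurable g) : ∫ x, g (T^[k] x) ∂μ = ∫ x, g x ∂μ := by
  have h1 := (hT.iterate k).map_eq
  calc ∫ x, g (T^[k] x) ∂μ = ∫ x, g x ∂(Measure.map (T^[k]) μ) := by
        rw [integral_map (hT.iterate k).measurable.aemeasurable hg.aestronglyMeasurable]
    _ = _ := by rw [h1]

theorem bdd_int [IsProbabilityMeasure μ] {g : X → ℝ} (hg : Measurable g) (M : ℝ)
    (hM : ∀ x, |g x| ≤ M) : Integrable g μ :=
  Integrable.of_bound hg.aestronglyMeasurable M
    (Filter.Eventually.of_forall fun x => by rw [Real.norm_eq_abs]; exact hM x)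

/-- the sums -/
noncomputable def Sn (T : X → X) (f : X → ℝ) (n : ℕ) (x : X) : ℝ :=
  ∑ k ∈ range n, f (T^[k] x)

theorem Sn_meas {T : X → X} (hT : Measurable T) {f : X → ℝ} (hf : Measurable f) (n : ℕ) :
    Measurable (Sn T f n) :=
  Finset.measurable_fun_sum _ fun k _ => hf.comp (hT.iterate k)

omit [MeasurableSpace X] in
theorem Sn_abs {T : X → X} {f : X → ℝ} {M : ℝ} (hf : ∀ x, |f x| ≤ M) (n : ℕ) (x : X) :
    |Sn T f n x| ≤ n * M := by
  refine (abs_sum_le_sum_abs _ _).trans ?_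
  refine (sum_le_sum fun k _ => hf _).trans ?_
  rw [sum_const, card_range, nsmul_eq_mul]

omit [MeasurableSpace X] in
theorem Sn_add (T : X → X) (f : X → ℝ) (m n : ℕ) (x : X) :
    Sn T f (m + n) x = Sn T f m x + Sn T f n (T^[m] x) := by
  unfold Sn
  rw [sum_range_add]
  congr 1
  apply sum_congr rfl
  intro k _
  rw [← iterate_add_apply, add_comm]

/-- **the second moment of the sums** -/
theorem second_moment [IsProbabilityMeasure μ] {T : X → X} (hT : MeasurePreserving T μ μ)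
    {f : X → ℝ} (hf : Measurable f) (hf2 : ∀ x, |f x| ≤ 2) {n : ℕ}
    {B : ℝ} (hB0 : 0 ≤ B)
    (hB : ∀ k, 3 ≤ k → k < n → |∫ x, f (T^[k] x) * f x ∂μ| ≤ B) :
    ∫ x, Sn T f n x ^ 2 ∂μ ≤ n * (n * B + 20) := by
  have hit : ∀ k, MeasurePreserving (T^[k]) μ μ := fun k => hT.iterate k
  have hfk : ∀ k, Measurable (fun x => f (T^[k] x)) := fun k => hf.comp (hit k).measurable
  have hcor : ∀ i j : ℕ, |∫ x, f (T^[i] x) * f (T^[j] x) ∂μ| ≤ 4 := by
    intro i j
    have := norm_integral_le_of_norm_le_const (μ := μ) (f := fun x => f (T^[i] x) * f (T^[j] x))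
      (C := 4) (Filter.Eventually.of_forall fun x => by
        rw [Real.norm_eq_abs, abs_mul]
        nlinarith [hf2 (T^[i] x), hf2 (T^[j] x), abs_nonneg (f (T^[i] x)),
          abs_nonneg (f (T^[j] x))])
    simpa using this
  have hshift : ∀ i j : ℕ, i ≤ j → ∫ x, f (T^[i] x) * f (T^[j] x) ∂μ =
      ∫ x, f (T^[j - i] x) * f x ∂μ := by
    intro i j hij
    have h3 := int_comp hT i (g := fun x => f (T^[j - i] x) * f x) ((hfk _).mul hf)
    rw [← h3]
    apply integral_congr_ae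
    refine Filter.Eventually.of_forall fun x => ?_
    simp only
    rw [← iterate_add_apply, Nat.sub_add_cancel hij]
    ring
  have hpair : ∀ i ∈ range n, ∀ j ∈ range n, ∫ x, f (T^[i] x) * f (T^[j] x) ∂μ ≤
      B + if j ∈ Icc (i - 2) (i + 2) then 4 else 0 := by
    intro i hi j hj
    rw [Finset.mem_range] at hi hj
    by_cases h : j ∈ Icc (i - 2) (i + 2)
    · rw [if_pos h]
      have := (abs_le.1 (hcor i j)).2
      linarith
    · rw [if_neg h, add_zero]
      rw [Finset.mem_Icc] at h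
      rcases le_total i j with hij | hij
      · rw [hshift i j hij]
        exact (abs_le.1 (hB (j - i) (by omega) (by omega))).2
      · have e : ∫ x, f (T^[i] x) * f (T^[j] x) ∂μ = ∫ x, f (T^[j] x) * f (T^[i] x) ∂μ := by
          apply integral_congr_ae
          exact Filter.Eventually.of_forall fun x => mul_comm _ _
        rw [e, hshift j i hij]
        exact (abs_le.1 (hB (i - j) (by omega) (by omega))).2
  have e : ∀ x, Sn T f n x ^ 2 = ∑ i ∈ range n, ∑ j ∈ range n, f (T^[i] x) * f (T^[j] x) := by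
    intro x
    unfold Sn
    rw [pow_two, sum_mul_sum]
  simp_rw [e]
  have hij : ∀ i j : ℕ, Integrable (fun x => f (T^[i] x) * f (T^[j] x)) μ := by
    intro i j
    refine bdd_int ((hfk i).mul (hfk j)) 4 fun x => ?_
    show |f (T^[i] x) * f (T^[j] x)| ≤ 4
    rw [abs_mul]
    nlinarith [hf2 (T^[i] x), hf2 (T^[j] x), abs_nonneg (f (T^[i] x)),
        abs_nonneg (f (T^[j] x))]
  rw [integral_finsetSum _ fun i _ => integrable_finsetSum _ fun j _ => hij i j]
  have h5 : ∀ i ∈ range n, ∫ x, ∑ j ∈ range n, f (T^[i] x) * f (T^[j] x) ∂μ ≤ n * B + 20 := by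
    intro i hi
    rw [integral_finsetSum _ fun j _ => hij i j]
    refine (sum_le_sum fun j hj => hpair i hi j hj).trans ?_
    rw [sum_add_distrib, sum_const, card_range, nsmul_eq_mul, ← sum_filter, sum_const,
      nsmul_eq_mul]
    have h6 : (((range n).filter fun j => j ∈ Icc (i - 2) (i + 2)).card : ℝ) ≤ 5 := by
      have h7 : ((range n).filter fun j => j ∈ Icc (i - 2) (i + 2)).card ≤
          (Icc (i - 2) (i + 2)).card := by
        apply card_le_card
        intro j hj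
        exact (mem_filter.1 hj).2
      rw [Nat.card_Icc] at h7
      have h8 : ((range n).filter fun j => j ∈ Icc (i - 2) (i + 2)).card ≤ 5 := by omega
      exact_mod_cast h8
    linarith
  refine (sum_le_sum h5).trans ?_
  rw [sum_const, card_range, nsmul_eq_mul]

omit [MeasurableSpace X] in
theorem ergAv_eq (T : X → X) (f : X → ℝ) (n : ℕ) (x : X) : ergAv T f n x = Sn T f n x / n := by
  unfold ergAv Sn
  ring

omit [MeasurableSpace X] in
theorem ergAv_abs {T : X → X} {f : X → ℝ} {M : ℝ} (hM0 : 0 ≤ M) (hf : ∀ x, |f x| ≤ M) (n : ℕ)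
    (x : X) : |ergAv T f n x| ≤ M := by
  rw [ergAv_eq, abs_div, Nat.abs_cast]
  rcases Nat.eq_zero_or_pos n with h | h
  · subst h
    simpa using hM0
  · have : (0:ℝ) < n := by exact_mod_cast h
    rw [div_le_iff₀ this, mul_comm]
    exact Sn_abs hf n x

/-- block decomposition of the sums -/
theorem second_block [IsProbabilityMeasure μ] {T : X → X} (hT : MeasurePreserving T μ μ)
    {f : X → ℝ} (hf : Measurable f) {M : ℝ} (hM : ∀ x, |f x| ≤ M) (n q : ℕ) :
    ∫ x, Sn T f (n * q) x ^ 2 ∂μ ≤ q ^ 2 * ∫ x, Sn T f n x ^ 2 ∂μ := by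
  have hSm := Sn_meas hT.measurable hf
  have e : ∀ (q : ℕ) (x : X), Sn T f (n * q) x = ∑ j ∈ range q, Sn T f n (T^[n * j] x) := by
    intro q
    induction q with
    | zero => intro x; simp [Sn]
    | succ q ih =>
      intro x
      rw [sum_range_succ, Nat.mul_succ, Sn_add, ih]
  have hint : ∀ j, Integrable (fun x => Sn T f n (T^[n * j] x) ^ 2) μ := by
    intro j
    refine bdd_int (((hSm n).comp (hT.iterate (n * j)).measurable).pow_const 2) ((n * M) ^ 2)
      fun x => ?_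
    show |Sn T f n (T^[n * j] x) ^ 2| ≤ _
    rw [abs_pow]
    exact pow_le_pow_left₀ (abs_nonneg _) (Sn_abs hM n _) 2
  have h1 : ∫ x, Sn T f (n * q) x ^ 2 ∂μ ≤
      ∫ x, (q : ℝ) * ∑ j ∈ range q, Sn T f n (T^[n * j] x) ^ 2 ∂μ := by
    apply integral_mono
    · refine bdd_int ((hSm (n * q)).pow_const 2) (((n * q : ℕ) * M) ^ 2) fun x => ?_
      rw [abs_pow]
      exact pow_le_pow_left₀ (abs_nonneg _) (Sn_abs hM (n * q) _) 2
    · exact (integrable_finsetSum _ fun j _ => hint j).const_mul _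
    · intro x
      simp only
      rw [e]
      have := sq_sum_le_card_mul_sum_sq (s := range q) (f := fun j => Sn T f n (T^[n * j] x))
      rwa [card_range] at this
  refine h1.trans (le_of_eq ?_)
  rw [integral_const_mul, integral_finsetSum _ fun j _ => hint j]
  have h2 : ∀ j, ∫ x, Sn T f n (T^[n * j] x) ^ 2 ∂μ = ∫ x, Sn T f n x ^ 2 ∂μ := fun j =>
    int_comp hT (n * j) (g := fun x => Sn T f n x ^ 2) ((hSm n).pow_const 2)
  simp_rw [h2]
  rw [sum_const, card_range, nsmul_eq_mul]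
  ring

/-- **the second moment of the averages for all times** -/
theorem second_all [IsProbabilityMeasure μ] {T : X → X} (hT : MeasurePreserving T μ μ)
    {f : X → ℝ} (hf : Measurable f) (hf2 : ∀ x, |f x| ≤ 2) {n : ℕ} (hn : 1 ≤ n)
    {B : ℝ} (hB0 : 0 ≤ B)
    (hB : ∀ k, 3 ≤ k → k < n → |∫ x, f (T^[k] x) * f x ∂μ| ≤ B) {N : ℕ} (hN : 1 ≤ N) :
    ∫ x, ergAv T f N x ^ 2 ∂μ ≤ 40 / N + 40 / n + 4 * B := by
  have hSm := Sn_meas hT.measurable hf
  have hn0 : (0:ℝ) < n := by exact_mod_cast hn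
  have hN0 : (0:ℝ) < N := by exact_mod_cast hN
  have hsm : ∀ r, r ≤ n → ∫ x, Sn T f r x ^ 2 ∂μ ≤ r * (r * B + 20) := fun r hr =>
    second_moment hT hf hf2 hB0 fun k h1 h2 => hB k h1 (h2.trans_le hr)
  have h1 : ∫ x, ergAv T f N x ^ 2 ∂μ = (∫ x, Sn T f N x ^ 2 ∂μ) / N ^ 2 := by
    rw [← integral_div]
    apply integral_congr_ae
    refine Filter.Eventually.of_forall fun x => ?_
    simp only
    rw [ergAv_eq, div_pow]
  rw [h1, div_le_iff₀ (by positivity)]
  obtain ⟨q, hq⟩ : ∃ q, q = N / n := ⟨_, rfl⟩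
  obtain ⟨r, hr⟩ : ∃ r, r = N % n := ⟨_, rfl⟩
  have hNqr : N = n * q + r := by
    rw [hq, hr]
    exact (Nat.div_add_mod N n).symm
  have hrn : r ≤ n := by
    rw [hr]
    exact (Nat.mod_lt _ (by omega)).le
  have hrN : r ≤ N := by omega
  have hqN : n * q ≤ N := by omega
  have e2 : ∀ x, Sn T f N x ^ 2 ≤ 2 * Sn T f (n * q) x ^ 2 + 2 * Sn T f r (T^[n * q] x) ^ 2 := by
    intro x
    conv_lhs => rw [hNqr]
    rw [Sn_add]
    nlinarith [sq_nonneg (Sn T f (n * q) x - Sn T f r (T^[n * q] x))]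
  have hi : ∀ r j : ℕ, Integrable (fun x => Sn T f r (T^[j] x) ^ 2) μ := by
    intro r j
    refine bdd_int (((hSm r).comp (hT.iterate j).measurable).pow_const 2) ((r * 2) ^ 2)
      fun x => ?_
    show |Sn T f r (T^[j] x) ^ 2| ≤ _
    rw [abs_pow]
    exact pow_le_pow_left₀ (abs_nonneg _) (Sn_abs hf2 r _) 2
  have hi1 : Integrable (fun x => Sn T f N x ^ 2) μ := hi N 0
  have hi2 : Integrable (fun x => Sn T f (n * q) x ^ 2) μ := hi (n * q) 0
  have hi3 := hi r (n * q)
  have h3 : ∫ x, Sn T f N x ^ 2 ∂μ ≤ 2 * ∫ x, Sn T f (n * q) x ^ 2 ∂μ +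
      2 * ∫ x, Sn T f r x ^ 2 ∂μ := by
    have h4 : ∫ x, Sn T f N x ^ 2 ∂μ ≤
        ∫ x, (2 * Sn T f (n * q) x ^ 2 + 2 * Sn T f r (T^[n * q] x) ^ 2) ∂μ :=
      integral_mono hi1 ((hi2.const_mul 2).add (hi3.const_mul 2)) e2
    rw [integral_add (hi2.const_mul 2) (hi3.const_mul 2), integral_const_mul,
      integral_const_mul, int_comp hT (n * q) (g := fun x => Sn T f r x ^ 2)
      ((hSm r).pow_const 2)] at h4
    linarith
  have h5 := second_block hT hf hf2 n q
  have h6 := hsm n le_rfl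
  have h7 := hsm r hrn
  have hq0 : (0:ℝ) ≤ q := Nat.cast_nonneg q
  have hr0 : (0:ℝ) ≤ r := Nat.cast_nonneg r
  have hqN' : (n:ℝ) * q ≤ N := by exact_mod_cast hqN
  have hrN' : (r:ℝ) ≤ N := by exact_mod_cast hrN
  have h8 : (q:ℝ) ^ 2 * ∫ x, Sn T f n x ^ 2 ∂μ ≤ q ^ 2 * (n * (n * B + 20)) :=
    mul_le_mul_of_nonneg_left h6 (by positivity)
  have h9 : (q:ℝ) ^ 2 * (n * (n * B + 20)) ≤ (20 / n + B) * N ^ 2 := by
    have e3 : (q:ℝ) ^ 2 * (n * (n * B + 20)) = (20 / n + B) * (n * q) ^ 2 := by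
      field_simp
      ring
    rw [e3]
    apply mul_le_mul_of_nonneg_left _ (by positivity)
    exact pow_le_pow_left₀ (by positivity) hqN' 2
  have h10 : (r:ℝ) * (r * B + 20) ≤ (20 / N + B) * N ^ 2 := by
    have e4 : (20 / N + B) * (N:ℝ) ^ 2 = 20 * N + B * N ^ 2 := by
      field_simp
    rw [e4]
    have : B * (r:ℝ) ^ 2 ≤ B * N ^ 2 :=
      mul_le_mul_of_nonneg_left (pow_le_pow_left₀ hr0 hrN' 2) hB0
    nlinarith
  have e5 : (40 / (N:ℝ) + 40 / n + 4 * B) * N ^ 2 =
      2 * ((20 / n + B) * N ^ 2) + 2 * ((20 / N + B) * N ^ 2) := by ring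
  rw [e5]
  linarith

omit [MeasurableSpace X] in
theorem ergAv_shift_iter {T : X → X} {f : X → ℝ} {M : ℝ} (hM : ∀ x, |f x| ≤ M) (n i : ℕ)
    (x : X) : |ergAv T f n (T^[i] x) - ergAv T f n x| ≤ i * (2 * M / n) := by
  induction i with
  | zero => simp
  | succ i ih =>
    rw [iterate_succ_apply']
    have h1 := ergAv_shift (T := T) hM n (T^[i] x)
    have h2 := abs_add_le (ergAv T f n (T (T^[i] x)) - ergAv T f n (T^[i] x))
      (ergAv T f n (T^[i] x) - ergAv T f n x)
    rw [sub_add_sub_cancel] at h2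
    push_cast
    linarith

omit [MeasurableSpace X] in
/-- averages of averages -/
theorem ergAv_ergAv {T : X → X} {f : X → ℝ} {M : ℝ} (hM0 : 0 ≤ M) (hM : ∀ x, |f x| ≤ M) {n : ℕ}
    (hn : 1 ≤ n) (N : ℕ) (x : X) :
    |ergAv T f N x - ergAv T (ergAv T f n) N x| ≤ n * (2 * M / N) := by
  have hn0 : (0:ℝ) < n := by exact_mod_cast hn
  have e : ergAv T (ergAv T f n) N x = (∑ i ∈ range n, ergAv T f N (T^[i] x)) / n := by
    unfold ergAv
    rw [mul_sum, sum_div]
    simp_rw [mul_sum]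
    rw [sum_comm]
    apply sum_congr rfl
    intro i _
    rw [sum_div]
    apply sum_congr rfl
    intro j _
    rw [← iterate_add_apply, ← iterate_add_apply, add_comm i j]
    ring
  have e1 : ergAv T f N x = (∑ i ∈ range n, ergAv T f N x) / n := by
    rw [sum_const, card_range, nsmul_eq_mul]
    field_simp
  rw [e]
  conv_lhs => rw [e1]
  rw [← sub_div, ← sum_sub_distrib, abs_div, abs_of_pos hn0, div_le_iff₀ hn0]
  refine (abs_sum_le_sum_abs _ _).trans ?_
  have h : ∀ i ∈ range n, |ergAv T f N x - ergAv T f N (T^[i] x)| ≤ n * (2 * M / N) := by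
    intro i hi
    rw [abs_sub_comm]
    refine (ergAv_shift_iter hM N i x).trans ?_
    apply mul_le_mul_of_nonneg_right _ (by positivity)
    have := Finset.mem_range.1 hi
    exact_mod_cast this.le
  refine (sum_le_sum h).trans ?_
  rw [sum_const, card_range, nsmul_eq_mul]
  linarith

omit [MeasurableSpace X] in
/-- Cauchy-Schwarz for the averages -/
theorem ergAv_sq (T : X → X) (g : X → ℝ) (N : ℕ) (x : X) :
    ergAv T g N x ^ 2 ≤ ergAv T (fun y => g y ^ 2) N x := by
  rcases Nat.eq_zero_or_pos N with h | h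
  · subst h
    simp [ergAv]
  have hN0 : (0:ℝ) < N := by exact_mod_cast h
  have h1 := sq_sum_le_card_mul_sum_sq (s := range N) (f := fun j => g (T^[j] x))
  rw [card_range] at h1
  unfold ergAv
  rw [mul_pow]
  calc (1 / (N:ℝ)) ^ 2 * (∑ j ∈ range N, g (T^[j] x)) ^ 2 ≤
      (1 / (N:ℝ)) ^ 2 * (N * ∑ j ∈ range N, g (T^[j] x) ^ 2) :=
        mul_le_mul_of_nonneg_left h1 (by positivity)
    _ = _ := by
      field_simp

/-- **deviations at all large times** -/
theorem all_times [IsProbabilityMeasure μ] {T : X → X} (hT : MeasurePreserving T μ μ)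
    {f : X → ℝ} (hf : Measurable f) {M : ℝ} (hM0 : 0 < M) (hM : ∀ x, |f x| ≤ M) {n : ℕ}
    (hn : 1 ≤ n) {κ : ℝ} (hκ : ∫ x, ergAv T f n x ^ 2 ∂μ ≤ κ) {ε : ℝ} (hε : 0 < ε) :
    μ.real {x | ∃ N : ℕ, 4 * M * n / ε ≤ N ∧ ε < |ergAv T f N x|} ≤ 4 * κ / ε ^ 2 := by
  have hgm : Measurable (ergAv T f n) := ergAv_meas' hT.measurable hf n
  have hg2m : Measurable (fun x => ergAv T f n x ^ 2) := hgm.pow_const 2
  have hgi : Integrable (fun x => ergAv T f n x ^ 2) μ := by
    refine bdd_int hg2m (M ^ 2) fun x => ?_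
    rw [abs_pow]
    exact pow_le_pow_left₀ (abs_nonneg _) (ergAv_abs hM0.le hM n x) 2
  have hc : 0 < (ε / 2) ^ 2 := by positivity
  have hmax := maximal hT hg2m hgi hc
  have hn0 : (0:ℝ) < n := by exact_mod_cast hn
  have hsub : {x | ∃ N : ℕ, 4 * M * n / ε ≤ N ∧ ε < |ergAv T f N x|} ⊆
      {x | ∃ k, (ε / 2) ^ 2 < ergAv T (fun y => ergAv T f n y ^ 2) k x} := by
    rintro x ⟨N, hN, hx⟩
    refine ⟨N, ?_⟩
    refine lt_of_lt_of_le ?_ (ergAv_sq T (ergAv T f n) N x)
    have hN0 : (0:ℝ) < N := lt_of_lt_of_le (by positivity) hN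
    have h1 := ergAv_ergAv (T := T) hM0.le hM hn N x
    have h2 : (n:ℝ) * (2 * M / N) ≤ ε / 2 := by
      rw [div_le_iff₀ hε] at hN
      rw [mul_div_assoc', div_le_iff₀ hN0]
      linarith
    have h3 : |ergAv T f N x| ≤ |ergAv T f N x - ergAv T (ergAv T f n) N x| +
        |ergAv T (ergAv T f n) N x| := by
      have := abs_add_le (ergAv T f N x - ergAv T (ergAv T f n) N x)
        (ergAv T (ergAv T f n) N x)
      rwa [sub_add_cancel] at this
    have h4 : ε / 2 < |ergAv T (ergAv T f n) N x| := by linarith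
    rw [← sq_abs (ergAv T (ergAv T f n) N x)]
    exact pow_lt_pow_left₀ h4 (by positivity) two_ne_zero
  have h0 : 0 ≤ ∫ x, |ergAv T f n x ^ 2| ∂μ := integral_nonneg fun x => abs_nonneg _
  have h5 := (measure_mono hsub).trans hmax
  have h6 := ENNReal.toReal_mono ENNReal.ofReal_ne_top h5
  rw [ENNReal.toReal_ofReal (by positivity)] at h6
  refine h6.trans ?_
  have h7 : ∫ x, |ergAv T f n x ^ 2| ∂μ ≤ κ := by
    refine le_trans (le_of_eq ?_) hκ
    apply integral_congr_ae
    refine Filter.Eventually.of_forall fun x => ?_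
    simp only
    exact abs_of_nonneg (sq_nonneg _)
  calc (∫ x, |ergAv T f n x ^ 2| ∂μ) / (ε / 2) ^ 2 ≤ κ / (ε / 2) ^ 2 :=
        div_le_div_of_nonneg_right h7 hc.le
    _ = 4 * κ / ε ^ 2 := by
        field_simp
        ring

/-- the averages over an invariant set -/
theorem inv_avg [IsProbabilityMeasure μ] {T : X → X} (hT : MeasurePreserving T μ μ)
    {f : X → ℝ} (hf : Measurable f) {M : ℝ} (hM0 : 0 ≤ M) (hM : ∀ x, |f x| ≤ M) {n : ℕ}
    (hn : 1 ≤ n) {κ : ℝ} (hκ : ∫ x, ergAv T f n x ^ 2 ∂μ ≤ κ) {A : Set X}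
    (hA : MeasurableSet A) (hTA : T ⁻¹' A = A) : (∫ x in A, f x ∂μ) ^ 2 ≤ μ.real A * κ := by
  have hn0 : (0:ℝ) < n := by exact_mod_cast hn
  have hTk : ∀ k, (T^[k]) ⁻¹' A = A := by
    intro k
    induction k with
    | zero => rfl
    | succ k ih => rw [iterate_succ, Set.preimage_comp, ih, hTA]
  have hfk : ∀ k, Measurable (fun x => f (T^[k] x)) := fun k =>
    hf.comp (hT.iterate k).measurable
  have hAk : ∀ k, ∫ x in A, f (T^[k] x) ∂μ = ∫ x in A, f x ∂μ := by
    intro k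
    rw [← integral_indicator hA, ← integral_indicator hA]
    have e : (A.indicator fun x => f (T^[k] x)) = fun x => A.indicator f (T^[k] x) := by
      funext x
      have hx : (T^[k] x ∈ A) ↔ x ∈ A := by
        rw [← Set.mem_preimage, hTk k]
      by_cases h : x ∈ A
      · rw [Set.indicator_of_mem h, Set.indicator_of_mem (hx.2 h)]
      · rw [Set.indicator_of_notMem h, Set.indicator_of_notMem fun h' => h (hx.1 h')]
    rw [e]
    exact int_comp hT k (hf.indicator hA)
  have hGA : ∫ x in A, ergAv T f n x ∂μ = ∫ x in A, f x ∂μ := by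
    unfold ergAv
    rw [integral_const_mul, integral_finsetSum _ fun k _ =>
      (bdd_int (hfk k) M fun x => hM _).integrableOn]
    simp_rw [hAk]
    rw [sum_const, card_range, nsmul_eq_mul]
    field_simp
  have h1 := sq_setIntegral_le (μ := μ) hA (ergAv_meas' hT.measurable hf n)
    (ergAv_abs hM0 hM n)
  rw [hGA] at h1
  exact h1.trans (mul_le_mul_of_nonneg_left hκ measureReal_nonneg)

end Pool.Agent.N15.SM
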