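import Mathlib
import Pool.Agent.TH705.SM.Dens

set_option autoImplicit false

/-!
# Standard map: integration by parts with a larger threshold at the last time
-/

namespace Pool.Agent.N15.SM

open Real MeasureTheory Function Pool.Agent.TH705.SM

/-- the cutoff with threshold `l` at the times `1, …, m` and threshold `lam` at time `m + 1` -/
noncomputable def c2 (a l lam s : ℝ) (m : ℕ) (t : ℝ) : ℝ := chi a l s m t * rk a lam s (m + 1) t

/-- its derivative -/
noncomputable def c2' (a l lam s : ℝ) (m : ℕ) (t : ℝ) : ℝ :=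
  chi' a l s m t * rk a lam s (m + 1) t + chi a l s m t * rk' a lam s (m + 1) t

theorem c2_hasDeriv (a l lam s : ℝ) (m : ℕ) (t : ℝ) :
    HasDerivAt (c2 a l lam s m) (c2' a l lam s m t) t :=
  (chi_hasDeriv a l s m t).mul (rk_hasDeriv a lam s (m + 1) t)

theorem c2_cont (a l lam s : ℝ) (m : ℕ) : Continuous (c2 a l lam s m) :=
  (chi_cont a l s m).mul (rk_cont a lam s (m + 1))

theorem c2'_cont (a l lam s : ℝ) (m : ℕ) : Continuous (c2' a l lam s m) :=
  ((chi'_cont a l s m).mul (rk_cont a lam s (m + 1))).add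
    ((chi_cont a l s m).mul (rk'_cont a lam s (m + 1)))

theorem rk_mem (a lam s : ℝ) (k : ℕ) (t : ℝ) : 0 ≤ rk a lam s k t ∧ rk a lam s k t ≤ 1 :=
  ⟨rho_nonneg _, rho_le_one _⟩

theorem c2_mem (a l lam s : ℝ) (m : ℕ) (t : ℝ) :
    0 ≤ c2 a l lam s m t ∧ c2 a l lam s m t ≤ 1 := by
  have h1 := chi_mem a l s m t
  have h2 := rk_mem a lam s (m + 1) t
  exact ⟨mul_nonneg h1.1 h2.1, mul_le_one₀ h1.2 h2.1 h2.2⟩

theorem c2_period (a l lam s : ℝ) (m : ℕ) (t : ℝ) :
    c2 a l lam s m (t + 1) = c2 a l lam s m t := by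
  unfold c2
  rw [chi_period, rk_period]

theorem c2_bad {a l lam s : ℝ} (hl : 0 < l) (hlam : 0 < lam) {m : ℕ} {t : ℝ}
    (h : ¬ (Good a l s m t ∧ lam ≤ |L a (X a s (m + 1) t)|)) :
    c2 a l lam s m t = 0 ∧ c2' a l lam s m t = 0 := by
  by_cases h1 : Good a l s m t
  · have h2 : |L a (X a s (m + 1) t)| < lam := by
      by_contra h3
      rw [not_lt] at h3
      exact h ⟨h1, h3⟩
    have h3 : |L a (X a s (m + 1) t) / lam| < 1 := by
      rw [abs_div, abs_of_pos hlam, div_lt_one hlam]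
      exact h2
    have h4 : rk a lam s (m + 1) t = 0 := rho_zero h3
    have h5 : rk' a lam s (m + 1) t = 0 := by
      unfold rk'
      rw [rho'_zero h3, zero_mul]
    unfold c2 c2'
    rw [h4, h5]
    simp
  · obtain ⟨h2, h3⟩ := chi_bad hl h1
    unfold c2 c2'
    rw [h2, h3]
    simp

theorem good_succ {a l lam s : ℝ} (hl : l ≤ lam) {m : ℕ} {t : ℝ}
    (h : Good a l s m t ∧ lam ≤ |L a (X a s (m + 1) t)|) : Good a l s (m + 1) t := by
  intro j h1 h2
  rcases Nat.lt_or_ge j (m + 1) with h4 | h4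
  · exact h.1 j h1 (by omega)
  · have : j = m + 1 := by omega
    rw [this]
    exact hl.trans h.2

/-- the weight -/
noncomputable def W2 (a l lam s : ℝ) (m : ℕ) (P : ℝ → ℝ) (t : ℝ) : ℝ :=
  c2 a l lam s m t * P t / D a s (m + 2) t

/-- its derivative -/
noncomputable def W2' (a l lam s : ℝ) (m : ℕ) (P P' : ℝ → ℝ) (t : ℝ) : ℝ :=
  (c2' a l lam s m t * P t + c2 a l lam s m t * P' t) / D a s (m + 2) t -
    c2 a l lam s m t * P t * B a s (m + 2) t / D a s (m + 2) t ^ 2

theorem W2_hasDeriv {a l lam s : ℝ} (hl : 16 ≤ l) (hlam : l ≤ lam) (m : ℕ) {P P' : ℝ → ℝ}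
    (hP : ∀ t, HasDerivAt P (P' t) t) (t : ℝ) :
    HasDerivAt (W2 a l lam s m P) (W2' a l lam s m P P' t) t := by
  have hl0 : 0 < l := by linarith
  have hlam0 : 0 < lam := by linarith
  by_cases hD : D a s (m + 2) t = 0
  · have hbad : ¬ (Good a l s m t ∧ lam ≤ |L a (X a s (m + 1) t)|) := fun h =>
      D_ne hl (good_succ hlam h) hD
    have hev : ∀ᶠ u in nhds t, ¬ (Good a l s m u ∧ lam ≤ |L a (X a s (m + 1) u)|) := by
      by_cases hg : Good a l s m t
      · have h1 : |L a (X a s (m + 1) t)| < lam := by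
          by_contra h3
          rw [not_lt] at h3
          exact hbad ⟨hg, h3⟩
        have hc : Continuous (fun t => |L a (X a s (m + 1) t)|) :=
          ((L_cont a).comp (Xt_cont a s (m + 1))).abs
        filter_upwards [hc.continuousAt.eventually_lt_const h1] with u hu
        intro h
        exact absurd h.2 (not_le.2 hu)
      · have h1 : ∃ j, 1 ≤ j ∧ j ≤ m ∧ |L a (X a s j t)| < l := by
          unfold Good at hg
          push Not at hg
          exact hg
        obtain ⟨j, hj1, hj2, hj⟩ := h1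
        have hc : Continuous (fun t => |L a (X a s j t)|) :=
          ((L_cont a).comp (Xt_cont a s j)).abs
        filter_upwards [hc.continuousAt.eventually_lt_const hj] with u hu
        intro h
        exact absurd (h.1 j hj1 hj2) (not_le.2 hu)
    have h3 : W2 a l lam s m P =ᶠ[nhds t] fun _ => 0 := by
      filter_upwards [hev] with u hu
      unfold W2
      rw [(c2_bad hl0 hlam0 hu).1, zero_mul, zero_div]
    have h4 : W2' a l lam s m P P' t = 0 := by
      unfold W2'
      rw [hD]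
      simp
    rw [h4]
    exact (hasDerivAt_const t 0).congr_of_eventuallyEq h3
  · have h1 := ((c2_hasDeriv a l lam s m t).mul (hP t)).div (D_hasDeriv a s (m + 2) t) hD
    refine HasDerivAt.congr_deriv (f := W2 a l lam s m P) h1 ?_
    unfold W2'
    rw [Pi.mul_apply]
    field_simp

/-- the second derivative at the last time, for a larger last threshold -/
theorem B_le3 {a l lam s : ℝ} (hl : 16 ≤ l) (hlam : l ≤ lam) (m : ℕ) (t : ℝ)
    (hg : Good a l s m t ∧ lam ≤ |L a (X a s (m + 1) t)|) :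
    |B a s (m + 2) t| ≤ D a s (m + 2) t ^ 2 *
      (129 * π ^ 2 * UU a l s m t / lam + 32 * π ^ 2 * ee a lam (X a s (m + 1) t)) := by
  have hl0 : 0 < l := by linarith
  have hlam0 : 0 < lam := by linarith
  have hpi := pi_pos
  have hg1 := good_succ hlam hg
  have h1 := B_le2 hl m t hg.1
  have h0 : |B a s m t| ≤ 32 * π ^ 2 * D a s m t ^ 2 * (2 * UU a l s m t) := by
    match m, hg, hg1 with
    | 0, _, _ => simp [B, UU]
    | m + 1, hg, hg1 =>
      have h := B_le2 hl m t (hg.1.mono (by omega))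
      refine h.trans ?_
      apply mul_le_mul_of_nonneg_left _ (by positivity)
      have := ee_nonneg a l (X a s (m + 1) t)
      show UU a l s m t ≤ 2 * (UU a l s m t / 2 + ee a l (X a s (m + 1) t))
      linarith
  obtain ⟨_, h6, _⟩ := growth hl hg1 (m + 1) le_rfl
  have h6 := h6 (by omega)
  have h5 := (growth hl hg1 m (by omega)).1
  set Lk := |L a (X a s (m + 1) t)| with hLk
  have hB : |B a s (m + 2) t| ≤ Lk * |B a s (m + 1) t| +
      4 * π ^ 2 * |a| * D a s (m + 1) t ^ 2 + |B a s m t| := by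
    show |L a (X a s (m + 1) t) * B a s (m + 1) t
      - 4 * π ^ 2 * a * sin (2 * π * X a s (m + 1) t) * D a s (m + 1) t ^ 2 - B a s m t| ≤ _
    have e1 : |L a (X a s (m + 1) t) * B a s (m + 1) t| = Lk * |B a s (m + 1) t| := abs_mul _ _
    have e2 : |4 * π ^ 2 * a * sin (2 * π * X a s (m + 1) t) * D a s (m + 1) t ^ 2| ≤
        4 * π ^ 2 * |a| * D a s (m + 1) t ^ 2 := by
      rw [abs_mul, abs_mul, abs_mul, abs_mul]
      have h7 := abs_sin_le_one (2 * π * X a s (m + 1) t)
      have e3 : |(4:ℝ)| * |π ^ 2| = 4 * π ^ 2 := by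
        rw [abs_of_pos (by norm_num : (0:ℝ) < 4), abs_of_pos (by positivity : 0 < π ^ 2)]
      rw [e3, abs_of_nonneg (sq_nonneg (D a s (m + 1) t))]
      apply mul_le_mul_of_nonneg_right _ (sq_nonneg _)
      calc 4 * π ^ 2 * |a| * |sin (2 * π * X a s (m + 1) t)| ≤ 4 * π ^ 2 * |a| * 1 :=
            mul_le_mul_of_nonneg_left h7 (by positivity)
        _ = _ := mul_one _
    have q1 := abs_sub (L a (X a s (m + 1) t) * B a s (m + 1) t
      - 4 * π ^ 2 * a * sin (2 * π * X a s (m + 1) t) * D a s (m + 1) t ^ 2) (B a s m t)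
    have q2 := abs_sub (L a (X a s (m + 1) t) * B a s (m + 1) t)
      (4 * π ^ 2 * a * sin (2 * π * X a s (m + 1) t) * D a s (m + 1) t ^ 2)
    linarith
  set d := |D a s (m + 1) t| with hd
  have hd2 : D a s (m + 1) t ^ 2 = d ^ 2 := (sq_abs _).symm
  have hd0 : 0 ≤ d := abs_nonneg _
  have h8 : |D a s m t| ≤ d / 8 := by
    have := abs_nonneg (D a s m t)
    nlinarith
  have h9 : D a s m t ^ 2 ≤ d ^ 2 / 64 := by
    have h81 := pow_le_pow_left₀ (abs_nonneg _) h8 2
    rw [sq_abs] at h81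
    calc D a s m t ^ 2 ≤ (d / 8) ^ 2 := h81
      _ = d ^ 2 / 64 := by ring
  set e2 := D a s (m + 2) t ^ 2 with he2
  have he20 : 0 ≤ e2 := sq_nonneg _
  have h10 : Lk ^ 2 * d ^ 2 ≤ 4 * e2 := by
    have := pow_le_pow_left₀ (by positivity) h6 2
    rw [mul_pow, mul_pow, sq_abs (D a s (m + 1 + 1) t)] at this
    show Lk ^ 2 * d ^ 2 ≤ 4 * D a s (m + 1 + 1) t ^ 2
    linarith
  have hLlam : lam ≤ Lk := hg.2
  have hLk0 : 0 < Lk := by linarith
  set U := UU a l s m t with hU
  have hU0 : 0 ≤ U := UU_nonneg a l s m t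
  set E := ee a lam (X a s (m + 1) t) with hE
  have hE0 : 0 ≤ E := ee_nonneg _ _ _
  have h11 : |a| * d ^ 2 ≤ 8 * E * e2 := by
    have hx : |a| ≤ 2 * E * Lk ^ 2 := by
      have hden : 0 < L a (X a s (m + 1) t) ^ 2 + lam ^ 2 := by positivity
      have e3 : |a| = E * (L a (X a s (m + 1) t) ^ 2 + lam ^ 2) := by
        rw [hE]
        unfold ee
        field_simp
      have e4 : L a (X a s (m + 1) t) ^ 2 + lam ^ 2 ≤ 2 * Lk ^ 2 := by
        rw [hLk, sq_abs]
        have := pow_le_pow_left₀ hlam0.le hg.2 2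
        rw [hLk, sq_abs] at this
        linarith
      calc |a| = E * (L a (X a s (m + 1) t) ^ 2 + lam ^ 2) := e3
        _ ≤ E * (2 * Lk ^ 2) := mul_le_mul_of_nonneg_left e4 hE0
        _ = _ := by ring
    calc |a| * d ^ 2 ≤ 2 * E * Lk ^ 2 * d ^ 2 := mul_le_mul_of_nonneg_right hx (sq_nonneg _)
      _ = 2 * E * (Lk ^ 2 * d ^ 2) := by ring
      _ ≤ 2 * E * (4 * e2) := mul_le_mul_of_nonneg_left h10 (by positivity)
      _ = _ := by ring
  -- `Lk d ^ 2 ≤ 4 e2 / lam`
  have h12 : Lk * d ^ 2 ≤ 4 * e2 / lam := by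
    rw [le_div_iff₀ hlam0]
    calc Lk * d ^ 2 * lam ≤ Lk * d ^ 2 * Lk :=
          mul_le_mul_of_nonneg_left hLlam (by positivity)
      _ = Lk ^ 2 * d ^ 2 := by ring
      _ ≤ _ := h10
  have h13 : d ^ 2 ≤ 4 * e2 / lam := by
    refine le_trans ?_ h12
    have : 1 ≤ Lk := by linarith
    nlinarith [sq_nonneg d]
  rw [hd2] at hB h1
  have q1 : Lk * |B a s (m + 1) t| ≤ Lk * (32 * π ^ 2 * d ^ 2 * U) :=
    mul_le_mul_of_nonneg_left h1 hLk0.le
  have q3 : Lk * (32 * π ^ 2 * d ^ 2 * U) ≤ 32 * π ^ 2 * U * (4 * e2 / lam) := by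
    have := mul_le_mul_of_nonneg_left h12 (by positivity : 0 ≤ 32 * π ^ 2 * U)
    linarith
  have q2 : |B a s m t| ≤ π ^ 2 * U * d ^ 2 := by
    refine h0.trans ?_
    have := mul_le_mul_of_nonneg_left h9 (by positivity : 0 ≤ 64 * π ^ 2 * U)
    linarith
  have q4 : π ^ 2 * U * d ^ 2 ≤ π ^ 2 * U * (e2 / lam) := by
    apply mul_le_mul_of_nonneg_left _ (by positivity)
    -- `d ^ 2 ≤ e2 / lam` since `Lk ≥ 16`
    rw [le_div_iff₀ hlam0]
    have h16 : 16 ≤ Lk := by linarith
    have : d ^ 2 * lam ≤ d ^ 2 * Lk := mul_le_mul_of_nonneg_left hLlam (sq_nonneg _)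
    have h17 : 16 * (Lk * d ^ 2) ≤ Lk ^ 2 * d ^ 2 := by
      have := mul_le_mul_of_nonneg_right h16 (by positivity : 0 ≤ Lk * d ^ 2)
      nlinarith
    nlinarith [sq_nonneg d]
  have q5 : 4 * π ^ 2 * |a| * d ^ 2 ≤ 32 * π ^ 2 * e2 * E := by
    have := mul_le_mul_of_nonneg_left h11 (by positivity : 0 ≤ 4 * π ^ 2)
    linarith
  have e5 : e2 * (129 * π ^ 2 * U / lam + 32 * π ^ 2 * E) =
      32 * π ^ 2 * U * (4 * e2 / lam) + π ^ 2 * U * (e2 / lam) + 32 * π ^ 2 * e2 * E := by
    field_simp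
    ring
  rw [e5]
  linarith

theorem c2_le_chi (a l lam s : ℝ) (m : ℕ) (t : ℝ) : c2 a l lam s m t ≤ chi a l s m t := by
  have h1 := chi_mem a l s m t
  have h2 := rk_mem a lam s (m + 1) t
  unfold c2
  nlinarith

theorem W2'_le {a l lam s : ℝ} (hl : 16 ≤ l) (hlam : l ≤ lam) (m : ℕ) {P P' : ℝ → ℝ} {t q1 q2 : ℝ}
    (hP : |P t| ≤ 1) (hq1 : 0 ≤ q1) (hq2 : 0 ≤ q2)
    (hP' : |P' t| ≤ q1 * |D a s (m + 1) t| + q2) :
    |W2' a l lam s m P P' t| ≤ 280 * KK * π ^ 2 * VV a l s m t / lam +
      104 * KK * π ^ 2 * (chi a l s m t * ee a lam (X a s (m + 1) t)) + 2 / lam * (q1 + q2) := by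
  have hl0 : 0 < l := by linarith
  have hlam0 : 0 < lam := by linarith
  have hK := KK_one
  have hpi := pi_pos
  have hV := VV_nonneg a l s m t
  have h4 := c2_mem a l lam s m t
  have h40 := chi_mem a l s m t
  have h41 := rk_mem a lam s (m + 1) t
  have hE0 : 0 ≤ ee a lam (X a s (m + 1) t) := ee_nonneg _ _ _
  by_cases hg : Good a l s m t ∧ lam ≤ |L a (X a s (m + 1) t)|
  · have hg1 := good_succ hlam hg
    have hD := D_ne hl hg1
    have hD0 : 0 < |D a s (m + 2) t| := abs_pos.2 hD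
    obtain ⟨_, hgr, _⟩ := growth hl hg1 (m + 1) le_rfl
    have hgr := hgr (by omega)
    have hD1 : 1 ≤ |D a s (m + 1) t| := (growth hl hg1 m (by omega)).2.2
    have hlD : lam * |D a s (m + 1) t| ≤ 2 * |D a s (m + 2) t| :=
      (mul_le_mul_of_nonneg_right hg.2 (abs_nonneg _)).trans hgr
    have hlD' : |D a s (m + 1) t| ≤ 2 / lam * |D a s (m + 2) t| := by
      rw [div_mul_eq_mul_div, le_div_iff₀ hlam0]
      linarith
    have h3 := chi'_le2 (a := a) (s := s) hl m t
    have h3b := rk'_le2 a hlam0 s (m + 1) t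
    have h5 := B_le3 hl hlam m t hg
    have h6 := chi_UU a l s m t
    set d := |D a s (m + 1) t| with hd
    set e := |D a s (m + 2) t| with he
    set V := VV a l s m t with hVd
    set E := ee a lam (X a s (m + 1) t) with hEd
    set c := chi a l s m t with hcd
    have h7 : |(c2' a l lam s m t * P t + c2 a l lam s m t * P' t)| ≤
        (144 * KK * π ^ 2 * V / lam + 72 * KK * π ^ 2 * (c * E) + 2 / lam * (q1 + q2)) * e := by
      refine (abs_add_le _ _).trans ?_
      have a1 : |c2' a l lam s m t * P t| ≤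
          (144 * KK * π ^ 2 * V / lam + 72 * KK * π ^ 2 * (c * E)) * e := by
        rw [abs_mul]
        have b1 : |c2' a l lam s m t| ≤ 72 * KK * π ^ 2 * d * V +
            c * (36 * KK * π ^ 2 * lam * E * d) := by
          unfold c2'
          refine (abs_add_le _ _).trans (add_le_add ?_ ?_)
          · rw [abs_mul]
            have : |rk a lam s (m + 1) t| ≤ 1 := by
              rw [abs_of_nonneg h41.1]
              exact h41.2
            calc |chi' a l s m t| * |rk a lam s (m + 1) t| ≤ |chi' a l s m t| * 1 :=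
                  mul_le_mul_of_nonneg_left this (abs_nonneg _)
              _ ≤ _ := by rw [mul_one]; exact h3
          · rw [abs_mul, abs_of_nonneg h40.1]
            exact mul_le_mul_of_nonneg_left h3b h40.1
        have b2 : 72 * KK * π ^ 2 * d * V ≤ 144 * KK * π ^ 2 * V / lam * e := by
          have := mul_le_mul_of_nonneg_left hlD' (by positivity : 0 ≤ 72 * KK * π ^ 2 * V)
          calc 72 * KK * π ^ 2 * d * V = 72 * KK * π ^ 2 * V * d := by ring
            _ ≤ 72 * KK * π ^ 2 * V * (2 / lam * e) := this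
            _ = _ := by ring
        have b3 : c * (36 * KK * π ^ 2 * lam * E * d) ≤ 72 * KK * π ^ 2 * (c * E) * e := by
          have := mul_le_mul_of_nonneg_left hlD
            (mul_nonneg h40.1 (by positivity : 0 ≤ 36 * KK * π ^ 2 * E))
          linarith
        calc |c2' a l lam s m t| * |P t| ≤ |c2' a l lam s m t| * 1 :=
              mul_le_mul_of_nonneg_left hP (abs_nonneg _)
          _ ≤ _ := by rw [mul_one]; linarith
      have a2 : |c2 a l lam s m t * P' t| ≤ 2 / lam * (q1 + q2) * e := by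
        rw [abs_mul, abs_of_nonneg h4.1]
        calc c2 a l lam s m t * |P' t| ≤ 1 * |P' t| :=
              mul_le_mul_of_nonneg_right h4.2 (abs_nonneg _)
          _ ≤ q1 * d + q2 := by rw [one_mul]; exact hP'
          _ ≤ (q1 + q2) * d := by nlinarith
          _ ≤ (q1 + q2) * (2 / lam * e) :=
              mul_le_mul_of_nonneg_left hlD' (by positivity)
          _ = _ := by ring
      linarith
    have h8 : |c2 a l lam s m t * P t * B a s (m + 2) t / D a s (m + 2) t ^ 2| ≤
        129 * π ^ 2 * V / lam + 32 * π ^ 2 * (c * E) := by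
      have hD2 : 0 < D a s (m + 2) t ^ 2 := by positivity
      rw [abs_div, abs_of_pos hD2, div_le_iff₀ hD2, abs_mul, abs_mul, abs_of_nonneg h4.1]
      have b1 : c2 a l lam s m t * |P t| ≤ c := by
        calc c2 a l lam s m t * |P t| ≤ c2 a l lam s m t * 1 :=
              mul_le_mul_of_nonneg_left hP h4.1
          _ ≤ c := by rw [mul_one]; exact c2_le_chi a l lam s m t
      calc c2 a l lam s m t * |P t| * |B a s (m + 2) t| ≤
          c * (D a s (m + 2) t ^ 2 *
            (129 * π ^ 2 * UU a l s m t / lam + 32 * π ^ 2 * E)) :=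
            mul_le_mul b1 h5 (abs_nonneg _) h40.1
        _ = D a s (m + 2) t ^ 2 * (129 * π ^ 2 * (c * UU a l s m t) / lam +
            32 * π ^ 2 * (c * E)) := by ring
        _ ≤ D a s (m + 2) t ^ 2 * (129 * π ^ 2 * V / lam + 32 * π ^ 2 * (c * E)) := by
            apply mul_le_mul_of_nonneg_left _ hD2.le
            have : 129 * π ^ 2 * (c * UU a l s m t) / lam ≤ 129 * π ^ 2 * V / lam := by
              apply div_le_div_of_nonneg_right _ hlam0.le
              exact mul_le_mul_of_nonneg_left h6 (by positivity)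
            linarith
        _ = _ := by ring
    have h7' : |(c2' a l lam s m t * P t + c2 a l lam s m t * P' t) / D a s (m + 2) t| ≤
        144 * KK * π ^ 2 * V / lam + 72 * KK * π ^ 2 * (c * E) + 2 / lam * (q1 + q2) := by
      rw [abs_div, div_le_iff₀ hD0]
      exact h7
    unfold W2'
    refine (abs_sub _ _).trans ((add_le_add h7' h8).trans ?_)
    have g1 : 129 * π ^ 2 * V / lam ≤ 136 * KK * π ^ 2 * V / lam := by
      apply div_le_div_of_nonneg_right _ hlam0.le
      apply mul_le_mul_of_nonneg_right _ hV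
      apply mul_le_mul_of_nonneg_right _ (by positivity)
      linarith
    have g2 : 32 * π ^ 2 * (c * E) ≤ 32 * KK * π ^ 2 * (c * E) := by
      apply mul_le_mul_of_nonneg_right _ (mul_nonneg h40.1 hE0)
      apply mul_le_mul_of_nonneg_right _ (by positivity)
      linarith
    have g3 : 144 * KK * π ^ 2 * V / lam + 136 * KK * π ^ 2 * V / lam =
        280 * KK * π ^ 2 * V / lam := by ring
    linarith
  · obtain ⟨h1, h2⟩ := c2_bad hl0 hlam0 hg
    unfold W2'
    rw [h1, h2]
    simp only [zero_mul, add_zero, zero_div, sub_zero, abs_zero]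
    have := h40.1
    positivity

/-- **integration by parts**, abstract form -/
theorem ibpG {a s : ℝ} {k : ℕ} {w w' c : ℝ → ℝ} (hw : ∀ t, HasDerivAt w (w' t) t)
    (hwm : Measurable w') (hcc : Continuous c) (e : ∀ t, w t * D a s k t = c t)
    (hper : w 1 = w 0) {bd : ℝ → ℝ} (hbdc : Continuous bd) (hbd : ∀ t, |w' t| ≤ bd t)
    {G g : ℝ → ℝ} (hG : ∀ u, HasDerivAt G (g u) u) (hg : Continuous g)
    (hGp : ∀ u, ∀ n : ℕ, G (u + n) = G u) {A : ℝ} (hG1 : ∀ u, |G u| ≤ A) :
    |∫ t in (0:ℝ)..1, c t * g (X a s k t)| ≤ A * ∫ t in (0:ℝ)..1, bd t := by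
  have hA0 : 0 ≤ A := (abs_nonneg _).trans (hG1 0)
  set F : ℝ → ℝ := fun t => w t * G (X a s k t) with hF
  set f : ℝ → ℝ := fun t => w' t * G (X a s k t) with hf
  set f2 : ℝ → ℝ := fun t => c t * g (X a s k t) with hf2
  have hGc : Continuous G := continuous_iff_continuousAt.2 fun t => (hG t).continuousAt
  have hXc := Xt_cont a s k
  have hFd : ∀ t, HasDerivAt F (f t + f2 t) t := by
    intro t
    have h1 := (hw t).mul ((hG (X a s k t)).comp t (X_hasDeriv a s k t))
    refine HasDerivAt.congr_deriv (f := F) h1 ?_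
    show w' t * G (X a s k t) + w t * (g (X a s k t) * D a s k t) = f t + f2 t
    rw [hf, hf2]
    simp only
    rw [← e]
    ring
  have hfm : Measurable f := hwm.mul (hGc.comp hXc).measurable
  have hf2c : Continuous f2 := hcc.mul (hg.comp hXc)
  have hbdc' : Continuous (fun t => A * bd t) := continuous_const.mul hbdc
  have hfb : ∀ t, |f t| ≤ A * bd t := by
    intro t
    rw [hf]
    simp only
    rw [abs_mul, mul_comm A]
    exact mul_le_mul (hbd t) (hG1 _) (abs_nonneg _) ((abs_nonneg _).trans (hbd t))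
  have hfi : IntervalIntegrable f volume 0 1 :=
    (hbdc'.intervalIntegrable 0 1).mono_fun hfm.aestronglyMeasurable
      (Filter.Eventually.of_forall fun t => by
        show ‖f t‖ ≤ ‖A * bd t‖
        rw [norm_eq_abs, norm_eq_abs]
        exact (hfb t).trans (le_abs_self _))
  have hf2i : IntervalIntegrable f2 volume 0 1 := hf2c.intervalIntegrable 0 1
  have hFTC := intervalIntegral.integral_eq_sub_of_hasDerivAt (fun t _ => hFd t)
    (hfi.add hf2i)
  have hperF : F 1 = F 0 := by
    rw [hF]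
    simp only
    have e2 : G (X a s k 1) = G (X a s k 0) := by
      have h1 := X_period a s k 0
      rw [zero_add] at h1
      rw [h1, hGp]
    rw [hper, e2]
  rw [hperF, sub_self, intervalIntegral.integral_add hfi hf2i] at hFTC
  have h2 : ∫ t in (0:ℝ)..1, f2 t = -∫ t in (0:ℝ)..1, f t := by linarith
  rw [h2, abs_neg]
  have h4 : ‖∫ t in (0:ℝ)..1, f t‖ ≤ |∫ t in (0:ℝ)..1, A * bd t| :=
    intervalIntegral.norm_integral_le_abs_of_norm_le
      (Filter.Eventually.of_forall fun t => hfb t) (hbdc'.intervalIntegrable 0 1)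
  rw [norm_eq_abs] at h4
  have h5 : 0 ≤ ∫ t in (0:ℝ)..1, A * bd t :=
    intervalIntegral.integral_nonneg zero_le_one fun t _ => (abs_nonneg _).trans (hfb t)
  rw [abs_of_nonneg h5, intervalIntegral.integral_const_mul] at h4
  exact h4

end Pool.Agent.N15.SM
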