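import Mathlib
import Pool.Agent.TH705.SM.Corr
import Pool.Agent.N15.SM.Two

set_option autoImplicit false

/-!
# Standard map: decay of correlations with a larger threshold at the last time
-/

namespace Pool.Agent.N15.SM

open Real MeasureTheory Function Pool.Agent.TH705.SM

theorem ee_per1 (a l : ℝ) : Periodic (ee a l) 1 := fun x => by
  have := ee_period a l x 1
  rwa [Nat.cast_one] at this

/-- the integral over the fibres -/
theorem fibre2 {a l lam : ℝ} (hl' : l0 ≤ l) (hlam : l ≤ lam) (hla : lam ≤ |a|) (m : ℕ)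
    {f : ℝ → ℝ} (hf : Continuous f)
    (hp : Periodic f 1) (h0 : ∫ x in (0:ℝ)..1, f x = 0) (hb : ∀ x, |f x| ≤ 2)
    {H1 H1' H2 H2' : ℝ → ℝ} (d1 : ∀ x, HasDerivAt H1 (H1' x) x) (c1 : Continuous H1')
    (p1 : Periodic H1 1) (b1 : ∀ x, |H1 x| ≤ 1)
    (d2 : ∀ x, HasDerivAt H2 (H2' x) x) (c2' : Continuous H2')
    (p2 : Periodic H2 1) (b2 : ∀ x, |H2 x| ≤ 1) (s : ℝ) :
    |∫ t in (0:ℝ)..1, f (X a s (m + 2) t) *
      (H1 (X a s (m + 1) t) * H2 (2 * s - t + a * sin (2 * π * s)))| ≤
      2 * (332 * KK * π ^ 2 / lam + 2 / lam * ∫ t in (0:ℝ)..1,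
        (|H1' (X a s (m + 1) t)| + |H2' (2 * s - t + a * sin (2 * π * s))|)) +
      2 * ((∑ k ∈ Finset.range m, ∫ t in (0:ℝ)..1, (1 - rk a l s (k + 1) t)) +
        ∫ t in (0:ℝ)..1, (1 - rk a lam s (m + 1) t)) := by
  obtain ⟨G, hG, hGp, hG1⟩ := prim hf hp h0 hb
  have hl : 16 ≤ l := l0_ge.trans hl'
  have hl0 : 0 < l := by linarith
  have hlam0 : 0 < lam := by linarith
  have hlal : l ≤ |a| := hlam.trans hla
  have hK := KK_one
  have hpi := pi_pos
  have hH1c : Continuous H1 := continuous_iff_continuousAt.2 fun t => (d1 t).continuousAt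
  have hH2c : Continuous H2 := continuous_iff_continuousAt.2 fun t => (d2 t).continuousAt
  set y : ℝ → ℝ := fun t => 2 * s - t + a * sin (2 * π * s) with hy
  have hyd : ∀ t, HasDerivAt y (-1) t := by
    intro t
    have := ((hasDerivAt_id t).const_sub (2 * s)).add_const (a * sin (2 * π * s))
    exact this
  have hyc : Continuous y := by rw [hy]; fun_prop
  set P : ℝ → ℝ := fun t => H1 (X a s (m + 1) t) * H2 (y t) with hP
  set P' : ℝ → ℝ := fun t => H1' (X a s (m + 1) t) * D a s (m + 1) t * H2 (y t) +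
    H1 (X a s (m + 1) t) * (H2' (y t) * (-1)) with hP'
  have hXc := Xt_cont a s (m + 1)
  have hXc' := Xt_cont a s (m + 2)
  have hDc := D_cont a s (m + 1)
  have hPd : ∀ t, HasDerivAt P (P' t) t := by
    intro t
    exact ((d1 _).comp t (X_hasDeriv a s (m + 1) t)).mul ((d2 _).comp t (hyd t))
  have e1 : Continuous (fun t => H1 (X a s (m + 1) t)) := hH1c.comp hXc
  have e2 : Continuous (fun t => H2 (y t)) := hH2c.comp hyc
  have e3 : Continuous (fun t => H1' (X a s (m + 1) t)) := c1.comp hXc
  have e4 : Continuous (fun t => H2' (y t)) := c2'.comp hyc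
  have hPc : Continuous P := e1.mul e2
  have hP'c : Continuous P' := ((e3.mul hDc).mul e2).add (e1.mul (e4.mul continuous_const))
  have hP1 : ∀ t, |P t| ≤ 1 := by
    intro t
    rw [hP]
    simp only
    rw [abs_mul]
    exact mul_le_one₀ (b1 _) (abs_nonneg _) (b2 _)
  have hPp : ∀ t, P (t + 1) = P t := by
    intro t
    rw [hP]
    simp only
    have q1 : H1 (X a s (m + 1) (t + 1)) = H1 (X a s (m + 1) t) := by
      rw [X_period]
      have := p1.nat_mul (m + 1) (X a s (m + 1) t)
      rwa [mul_one] at this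
    have q2 : H2 (y (t + 1)) = H2 (y t) := by
      have : y (t + 1) = y t - 1 := by rw [hy]; ring
      rw [this]
      exact p2.sub_eq (y t)
    rw [q1, q2]
  have hP'b : ∀ t, |P' t| ≤ |H1' (X a s (m + 1) t)| * |D a s (m + 1) t| + |H2' (y t)| := by
    intro t
    rw [hP']
    simp only
    refine (abs_add_le _ _).trans (add_le_add ?_ ?_)
    · rw [abs_mul, abs_mul]
      calc _ ≤ |H1' (X a s (m + 1) t)| * |D a s (m + 1) t| * 1 :=
            mul_le_mul_of_nonneg_left (b2 _) (by positivity)
        _ = _ := mul_one _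
    · rw [abs_mul, abs_mul, abs_neg, abs_one, mul_one]
      calc _ ≤ 1 * |H2' (y t)| := mul_le_mul_of_nonneg_right (b1 _) (abs_nonneg _)
        _ = _ := one_mul _
  have hVc := VV_cont a hl0 s m
  have hEc : Continuous (fun t => ee a lam (X a s (m + 1) t)) := (ee_cont a hlam0).comp hXc
  have hcc := chi_cont a l s m
  have hc2c := c2_cont a l lam s m
  have hc2'c := c2'_cont a l lam s m
  have hD2c := D_cont a s (m + 2)
  have hB2c := B_cont a s (m + 2)
  set bd : ℝ → ℝ := fun t => 280 * KK * π ^ 2 * VV a l s m t / lam +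
      104 * KK * π ^ 2 * (chi a l s m t * ee a lam (X a s (m + 1) t)) +
      2 / lam * (|H1' (X a s (m + 1) t)| + |H2' (y t)|) with hbd
  have f1 : Continuous (fun t => 280 * KK * π ^ 2 * VV a l s m t / lam) := by fun_prop
  have f2 : Continuous (fun t => 104 * KK * π ^ 2 *
      (chi a l s m t * ee a lam (X a s (m + 1) t))) := by fun_prop
  have f3 : Continuous (fun t => 2 / lam * (|H1' (X a s (m + 1) t)| + |H2' (y t)|)) := by
    fun_prop
  have hbdc : Continuous bd := (f1.add f2).add f3
  have hW2'm : Measurable (W2' a l lam s m P P') := by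
    have c1 := hc2'c.measurable
    have c2 := hc2c.measurable
    have c3 := hPc.measurable
    have c4 := hP'c.measurable
    have c5 := hD2c.measurable
    have c6 := hB2c.measurable
    unfold W2'
    exact (((c1.mul c3).add (c2.mul c4)).div c5).sub (((c2.mul c3).mul c6).div (c5.pow_const 2))
  have hibp := ibpG (a := a) (s := s) (k := m + 2) (w := W2 a l lam s m P)
    (w' := W2' a l lam s m P P') (c := fun t => c2 a l lam s m t * P t)
    (W2_hasDeriv hl hlam m hPd) hW2'm (hc2c.mul hPc) (by
      intro t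
      unfold W2
      by_cases hgd : Good a l s m t ∧ lam ≤ |L a (X a s (m + 1) t)|
      · exact div_mul_cancel₀ _ (D_ne hl (good_succ hlam hgd))
      · rw [(c2_bad hl0 hlam0 hgd).1]
        simp) (by
      unfold W2
      have h1 := c2_period a l lam s m 0
      have h2 := hPp 0
      have h3 := D_period a s (m + 2) 0
      rw [zero_add] at h1 h2 h3
      rw [h1, h2, h3]) hbdc (fun t => by
      exact W2'_le hl hlam m (hP1 t) (abs_nonneg _) (abs_nonneg _) (hP'b t)) hG (hf.div_const 2)
    (fun u n => by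
      have := hGp.nat_mul n u
      rwa [mul_one] at this) hG1
  have hIbd : ∫ t in (0:ℝ)..1, bd t ≤ 332 * KK * π ^ 2 / lam + 2 / lam * ∫ t in (0:ℝ)..1,
      (|H1' (X a s (m + 1) t)| + |H2' (y t)|) := by
    rw [hbd]
    rw [intervalIntegral.integral_add (f := fun t => 280 * KK * π ^ 2 * VV a l s m t / lam +
      104 * KK * π ^ 2 * (chi a l s m t * ee a lam (X a s (m + 1) t)))
      (g := fun t => 2 / lam * (|H1' (X a s (m + 1) t)| + |H2' (y t)|))
      ((f1.add f2).intervalIntegrable _ _) (f3.intervalIntegrable _ _),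
      intervalIntegral.integral_add (f := fun t => 280 * KK * π ^ 2 * VV a l s m t / lam)
      (g := fun t => 104 * KK * π ^ 2 * (chi a l s m t * ee a lam (X a s (m + 1) t)))
      (f1.intervalIntegrable _ _) (f2.intervalIntegrable _ _),
      intervalIntegral.integral_const_mul, intervalIntegral.integral_div,
      intervalIntegral.integral_const_mul, intervalIntegral.integral_const_mul]
    have g1 := VV_int hl' hlal s m
    have g2 := dens hl' hlal s m (ee_cont a hlam0) (ee_per1 a lam) (ee_nonneg a lam)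
    have g3 := ee_int (a := a) (l := lam) (by linarith) hla
    have g4 : ∫ t in (0:ℝ)..1, VV a l s m t ≤ 1 := by
      refine g1.trans ?_
      rw [div_le_one hl0]
      linarith
    have g5 : 280 * KK * π ^ 2 * (∫ t in (0:ℝ)..1, VV a l s m t) / lam ≤
        280 * KK * π ^ 2 / lam := by
      apply div_le_div_of_nonneg_right _ hlam0.le
      have := mul_le_mul_of_nonneg_left g4 (by positivity : 0 ≤ 280 * KK * π ^ 2)
      linarith
    have g6 : 104 * KK * π ^ 2 *
        ∫ t in (0:ℝ)..1, chi a l s m t * ee a lam (X a s (m + 1) t) ≤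
        52 * KK * π ^ 2 / lam := by
      have h1 : ∫ t in (0:ℝ)..1, chi a l s m t * ee a lam (X a s (m + 1) t) ≤
          1 / (2 * lam) := by
        refine g2.trans ?_
        have : 2 * (1 / (4 * lam)) = 1 / (2 * lam) := by field_simp; norm_num
        linarith
      have := mul_le_mul_of_nonneg_left h1 (by positivity : 0 ≤ 104 * KK * π ^ 2)
      refine this.trans (le_of_eq ?_)
      field_simp
      norm_num
    have g7 : 280 * KK * π ^ 2 / lam + 52 * KK * π ^ 2 / lam = 332 * KK * π ^ 2 / lam := by ring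
    linarith
  rw [one_mul] at hibp
  have hibp := hibp.trans hIbd
  have hfc : Continuous (fun t => f (X a s (m + 2) t)) := hf.comp hXc'
  have hA : ∫ t in (0:ℝ)..1, c2 a l lam s m t * P t * (f (X a s (m + 2) t) / 2) =
      (∫ t in (0:ℝ)..1, c2 a l lam s m t * P t * f (X a s (m + 2) t)) / 2 := by
    rw [← intervalIntegral.integral_div]
    apply intervalIntegral.integral_congr
    intro t _
    simp only
    ring
  rw [hA, abs_div, abs_of_pos (by norm_num : (0:ℝ) < 2), div_le_iff₀ (by norm_num)] at hibp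
  simp only [hy] at hibp
  have hsplit : ∫ t in (0:ℝ)..1, f (X a s (m + 2) t) *
      (H1 (X a s (m + 1) t) * H2 (2 * s - t + a * sin (2 * π * s))) =
      (∫ t in (0:ℝ)..1, c2 a l lam s m t * P t * f (X a s (m + 2) t)) +
      ∫ t in (0:ℝ)..1, (1 - c2 a l lam s m t) * P t * f (X a s (m + 2) t) := by
    rw [← intervalIntegral.integral_add (by
      apply Continuous.intervalIntegrable; fun_prop) (by
      apply Continuous.intervalIntegrable; fun_prop)]
    apply intervalIntegral.integral_congr
    intro t _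
    simp only [hP, hy]
    ring
  rw [hsplit]
  have hsum : Continuous (fun t : ℝ => (∑ k ∈ Finset.range m, (1 - rk a l s (k + 1) t)) +
      (1 - rk a lam s (m + 1) t)) := by
    apply Continuous.add
    · apply continuous_finsetSum
      intro k _
      exact continuous_const.sub (rk_cont a l s (k + 1))
    · exact continuous_const.sub (rk_cont a lam s (m + 1))
  have h2 : |∫ t in (0:ℝ)..1, (1 - c2 a l lam s m t) * P t * f (X a s (m + 2) t)| ≤
      2 * ((∑ k ∈ Finset.range m, ∫ t in (0:ℝ)..1, (1 - rk a l s (k + 1) t)) +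
        ∫ t in (0:ℝ)..1, (1 - rk a lam s (m + 1) t)) := by
    have hsc : Continuous (fun t : ℝ => ∑ k ∈ Finset.range m, (1 - rk a l s (k + 1) t)) := by
      apply continuous_finsetSum
      intro k _
      exact continuous_const.sub (rk_cont a l s (k + 1))
    have hlc : Continuous (fun t : ℝ => 1 - rk a lam s (m + 1) t) :=
      continuous_const.sub (rk_cont a lam s (m + 1))
    rw [← intervalIntegral.integral_finsetSum (by
      intro k _
      apply Continuous.intervalIntegrable
      exact continuous_const.sub (rk_cont a l s (k + 1))),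
      ← intervalIntegral.integral_add (hsc.intervalIntegrable _ _) (hlc.intervalIntegrable _ _),
      ← intervalIntegral.integral_const_mul]
    have h3 : ∀ t, |(1 - c2 a l lam s m t) * P t * f (X a s (m + 2) t)| ≤
        2 * ((∑ k ∈ Finset.range m, (1 - rk a l s (k + 1) t)) + (1 - rk a lam s (m + 1) t)) := by
      intro t
      have q1 := one_sub_chi a l s m t
      have q2 := chi_mem a l s m t
      have q5 := c2_mem a l lam s m t
      have q6 := rk_mem a lam s (m + 1) t
      have q7 : 1 - c2 a l lam s m t ≤ (1 - chi a l s m t) + (1 - rk a lam s (m + 1) t) := by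
        unfold c2
        nlinarith
      rw [abs_mul, abs_mul, abs_of_nonneg (by linarith : 0 ≤ 1 - c2 a l lam s m t)]
      have q3 := hP1 t
      have q4 := hb (X a s (m + 2) t)
      calc (1 - c2 a l lam s m t) * |P t| * |f (X a s (m + 2) t)| ≤
          (1 - c2 a l lam s m t) * 1 * 2 := by
            apply mul_le_mul _ q4 (abs_nonneg _) (by linarith)
            exact mul_le_mul_of_nonneg_left q3 (by linarith)
        _ ≤ _ := by linarith
    have h4 := intervalIntegral.norm_integral_le_abs_of_norm_le (a := 0) (b := 1) (μ := volume)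
      (f := fun t => (1 - c2 a l lam s m t) * P t * f (X a s (m + 2) t))
      (g := fun t => 2 * ((∑ k ∈ Finset.range m, (1 - rk a l s (k + 1) t)) +
        (1 - rk a lam s (m + 1) t)))
      (Filter.Eventually.of_forall fun t => h3 t)
      ((continuous_const.mul hsum).intervalIntegrable 0 1)
    rw [norm_eq_abs] at h4
    refine h4.trans (le_of_eq (abs_of_nonneg ?_))
    exact intervalIntegral.integral_nonneg zero_le_one fun t _ => (abs_nonneg _).trans (h3 t)
  refine (abs_add_le _ _).trans (add_le_add ?_ h2)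
  linarith

/-- **decay of correlations**, smooth version -/
theorem corr2 {a l lam : ℝ} (hl' : l0 ≤ l) (hlam : l ≤ lam) (hla : lam ≤ |a|) (m : ℕ)
    {g g2 : UnitAddCircle → ℝ} (hg : Continuous g) (hg2 : Continuous g2)
    (hg1 : ∀ x, |g x| ≤ 1) (hg21 : ∀ x, |g2 x| ≤ 1)
    {H1 H1' H2 H2' : ℝ → ℝ} (d1 : ∀ x, HasDerivAt H1 (H1' x) x) (c1 : Continuous H1')
    (p1 : Periodic H1 1) (p1' : Periodic H1' 1) (b1 : ∀ x, |H1 x| ≤ 1)
    (d2 : ∀ x, HasDerivAt H2 (H2' x) x) (c2 : Continuous H2')
    (p2 : Periodic H2 1) (p2' : Periodic H2' 1) (b2 : ∀ x, |H2 x| ≤ 1) :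
    |∫ p : T2, (g (((S a)^[m + 2] p).1) - ∫ x, g x) * p1.lift (((S a)^[m + 2] p).2) *
      (g2 p.1 * p2.lift p.2)| ≤
      664 * KK * π ^ 2 / lam +
        4 / lam * ((∫ x in (0:ℝ)..1, |H1' x|) + ∫ x in (0:ℝ)..1, |H2' x|) +
        2 * (m * (l / |a|) + lam / |a|) := by
  have hl : 16 ≤ l := l0_ge.trans hl'
  have hlam16 : 16 ≤ lam := hl.trans hlam
  have ha : 0 < |a| := by linarith
  have hH1c : Continuous H1 := continuous_iff_continuousAt.2 fun t => (d1 t).continuousAt
  have hH2c : Continuous H2 := continuous_iff_continuousAt.2 fun t => (d2 t).continuousAt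
  have hl1 := lift_cont p1 hH1c
  have hl2 := lift_cont p2 hH2c
  have hl0 : 0 < l := by linarith
  have hlam0 : 0 < lam := by linarith
  set gb : ℝ := ∫ x, g x with hgb
  have hgb1 : |gb| ≤ 1 := by
    have := norm_integral_le_of_norm_le_const (μ := (volume : Measure UnitAddCircle)) (f := g)
      (C := 1) (Filter.Eventually.of_forall fun x => by rw [norm_eq_abs]; exact hg1 x)
    simpa using this
  -- change of variables
  set F : T2 → ℝ := fun q => (g (((S a)^[m + 1] q).1) - gb) * p1.lift (((S a)^[m + 1] q).2) *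
    (g2 ((Si a q).1) * p2.lift ((Si a q).2)) with hF
  have hit := (S_cont a).iterate (m + 1)
  have hSi := Si_cont a
  have hFc : Continuous F := by
    have k1 : Continuous (fun q : T2 => g (((S a)^[m + 1] q).1)) :=
      hg.comp (continuous_fst.comp hit)
    have k2 : Continuous (fun q : T2 => p1.lift (((S a)^[m + 1] q).2)) :=
      hl1.comp (continuous_snd.comp hit)
    have k3 : Continuous (fun q : T2 => g2 ((Si a q).1)) := hg2.comp (continuous_fst.comp hSi)
    have k4 : Continuous (fun q : T2 => p2.lift ((Si a q).2)) := hl2.comp (continuous_snd.comp hSi)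
    exact ((k1.sub continuous_const).mul k2).mul (k3.mul k4)
  have h1 : ∫ p : T2, (g (((S a)^[m + 2] p).1) - gb) * p1.lift (((S a)^[m + 2] p).2) *
      (g2 p.1 * p2.lift p.2) = ∫ q : T2, F q := by
    have h2 : ∫ q, F q ∂(Measure.map (S a) volume) = ∫ p : T2, F (S a p) :=
      integral_map (S_mp a).measurable.aemeasurable hFc.aestronglyMeasurable
    rw [(S_mp a).map_eq] at h2
    rw [h2]
    apply integral_congr_ae
    refine Filter.Eventually.of_forall fun p => ?_
    simp only [hF]
    rw [Si_S, ← iterate_succ_apply]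
  rw [h1, int_T2 F (integrable_cont hFc)]
  -- pointwise form
  set f : ℝ → ℝ := fun x => g (x : UnitAddCircle) - gb with hf
  have hfc : Continuous f := (hg.comp (AddCircle.continuous_mk' 1)).sub continuous_const
  have hfp : Periodic f 1 := by
    intro x
    rw [hf]
    simp only
    rw [AddCircle.coe_add, AddCircle.coe_period, add_zero]
  have hf0 : ∫ x in (0:ℝ)..1, f x = 0 := by
    rw [hf]
    have k1 := UnitAddCircle.intervalIntegral_preimage 0 g
    rw [zero_add] at k1
    rw [intervalIntegral.integral_sub, k1, intervalIntegral.integral_const]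
    · simp [hgb]
    · exact (hg.comp (AddCircle.continuous_mk' 1)).intervalIntegrable _ _
    · exact intervalIntegrable_const
  have hfb : ∀ x, |f x| ≤ 2 := by
    intro x
    have := abs_sub (g (x : UnitAddCircle)) gb
    have := hg1 (x : UnitAddCircle)
    rw [hf]
    simp only
    linarith
  have hFst : ∀ s t : ℝ, F ((t : UnitAddCircle), (s : UnitAddCircle)) =
      g2 (s : UnitAddCircle) * (f (X a s (m + 2) t) *
        (H1 (X a s (m + 1) t) * H2 (2 * s - t + a * sin (2 * π * s)))) := by
    intro s t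
    rw [hF]
    simp only
    rw [iter_coe, Si_coe, p1.lift_coe, p2.lift_coe]
    simp only [hf]
    ring
  simp only [hFst]
  -- bound function
  set bd : ℝ → ℝ := fun s => 2 * (332 * KK * π ^ 2 / lam + 2 / lam * ∫ t in (0:ℝ)..1,
        (|H1' (X a s (m + 1) t)| + |H2' (2 * s - t + a * sin (2 * π * s))|)) +
      2 * ((∑ k ∈ Finset.range m, ∫ t in (0:ℝ)..1, (1 - rk a l s (k + 1) t)) +
        ∫ t in (0:ℝ)..1, (1 - rk a lam s (m + 1) t)) with hbd
  have hpt : ∀ s : ℝ, |∫ t in (0:ℝ)..1, g2 (s : UnitAddCircle) * (f (X a s (m + 2) t) *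
        (H1 (X a s (m + 1) t) * H2 (2 * s - t + a * sin (2 * π * s))))| ≤ bd s := by
    intro s
    rw [intervalIntegral.integral_const_mul, abs_mul]
    have k1 := fibre2 (a := a) hl' hlam hla m hfc hfp hf0 hfb d1 c1 p1 b1 d2 c2 p2 b2 s
    calc _ ≤ 1 * _ := mul_le_mul_of_nonneg_right (hg21 _) (abs_nonneg _)
      _ ≤ _ := by rw [one_mul]; exact k1
  -- continuity in `s`
  have hXj := X_cont a
  have j1 : Continuous (fun p : ℝ × ℝ => |H1' (X a p.1 (m + 1) p.2)|) :=
    (c1.comp (hXj (m + 1))).abs
  have j2 : Continuous (fun p : ℝ × ℝ => |H2' (2 * p.1 - p.2 + a * sin (2 * π * p.1))|) := by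
    have : Continuous (fun p : ℝ × ℝ => 2 * p.1 - p.2 + a * sin (2 * π * p.1)) := by fun_prop
    exact (c2.comp this).abs
  have j3 : ∀ l' k, Continuous (fun p : ℝ × ℝ => 1 - rk a l' p.1 (k + 1) p.2) := by
    intro l' k
    unfold rk
    exact continuous_const.sub (rho_cont.comp (((L_cont a).comp (hXj (k + 1))).div_const l'))
  have i1 : Continuous (fun s : ℝ => ∫ t in (0:ℝ)..1, |H1' (X a s (m + 1) t)|) :=
    intervalIntegral.continuous_parametric_intervalIntegral_of_continuous' (f := fun s t =>
      |H1' (X a s (m + 1) t)|) j1 0 1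
  have i2 : Continuous (fun s : ℝ => ∫ t in (0:ℝ)..1, |H2' (2 * s - t + a * sin (2 * π * s))|) :=
    intervalIntegral.continuous_parametric_intervalIntegral_of_continuous' (f := fun s t =>
      |H2' (2 * s - t + a * sin (2 * π * s))|) j2 0 1
  have i3 : ∀ l' k, Continuous (fun s : ℝ => ∫ t in (0:ℝ)..1, (1 - rk a l' s (k + 1) t)) :=
    fun l' k =>
    intervalIntegral.continuous_parametric_intervalIntegral_of_continuous' (f := fun s t =>
      1 - rk a l' s (k + 1) t) (j3 l' k) 0 1
  have sl : ∀ s : ℝ, Continuous (fun t : ℝ => (s, t)) := fun s => by fun_prop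
  have hsplit : ∀ s : ℝ, ∫ t in (0:ℝ)..1,
      (|H1' (X a s (m + 1) t)| + |H2' (2 * s - t + a * sin (2 * π * s))|) =
      (∫ t in (0:ℝ)..1, |H1' (X a s (m + 1) t)|) +
        ∫ t in (0:ℝ)..1, |H2' (2 * s - t + a * sin (2 * π * s))| := by
    intro s
    exact intervalIntegral.integral_add ((j1.comp (sl s)).intervalIntegrable 0 1)
      ((j2.comp (sl s)).intervalIntegrable 0 1)
  have i4 : Continuous (fun s : ℝ => ∑ k ∈ Finset.range m,
      ∫ t in (0:ℝ)..1, (1 - rk a l s (k + 1) t)) := continuous_finsetSum _ fun k _ => i3 l k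
  have i5 := i3 lam m
  have hbdc : Continuous bd := by
    rw [hbd]
    simp only [hsplit]
    fun_prop
  have h3 := intervalIntegral.norm_integral_le_abs_of_norm_le (a := 0) (b := 1) (μ := volume)
    (f := fun s : ℝ => ∫ t in (0:ℝ)..1, g2 (s : UnitAddCircle) * (f (X a s (m + 2) t) *
        (H1 (X a s (m + 1) t) * H2 (2 * s - t + a * sin (2 * π * s)))))
    (g := bd) (Filter.Eventually.of_forall fun s => hpt s) (hbdc.intervalIntegrable 0 1)
  rw [norm_eq_abs] at h3
  refine h3.trans ?_
  have hnn : 0 ≤ ∫ s in (0:ℝ)..1, bd s :=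
    intervalIntegral.integral_nonneg zero_le_one fun s _ => (abs_nonneg _).trans (hpt s)
  rw [abs_of_nonneg hnn]
  -- evaluation
  have v1 : ∫ s in (0:ℝ)..1, ∫ t in (0:ℝ)..1, |H1' (X a s (m + 1) t)| =
      ∫ x in (0:ℝ)..1, |H1' x| :=
    int_X a (f := fun x => |H1' x|) (fun x => by simp only; rw [p1' x]) c1.abs (by omega)
  have v2 : ∫ s in (0:ℝ)..1, ∫ t in (0:ℝ)..1, |H2' (2 * s - t + a * sin (2 * π * s))| =
      ∫ x in (0:ℝ)..1, |H2' x| := by
    have : ∀ s : ℝ, ∫ t in (0:ℝ)..1, |H2' (2 * s - t + a * sin (2 * π * s))| =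
        ∫ x in (0:ℝ)..1, |H2' x| := by
      intro s
      have k1 := int_y (f := fun x => |H2' x|) (fun x => by simp only; rw [p2' x])
        (2 * s + a * sin (2 * π * s))
      rw [← k1]
      apply intervalIntegral.integral_congr
      intro t _
      simp only
      congr 2
      ring
    simp only [this]
    simp
  have v3 : ∀ l' : ℝ, 16 ≤ l' → ∀ k, ∫ s in (0:ℝ)..1, ∫ t in (0:ℝ)..1,
      (1 - rk a l' s (k + 1) t) ≤ l' / |a| := by
    intro l' hl'16 k
    have k1 := int_X a (f := fun x => 1 - rho (L a x / l')) (fun x => by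
      simp only
      have := L_period a x 1
      rw [Nat.cast_one] at this
      rw [this]) (continuous_const.sub (rho_cont.comp ((L_cont a).div_const l')))
      (k := k + 1) (by omega)
    have k2 : ∫ s in (0:ℝ)..1, ∫ t in (0:ℝ)..1, (1 - rk a l' s (k + 1) t) =
        ∫ x in (0:ℝ)..1, (1 - rho (L a x / l')) := k1
    rw [k2]
    exact kappa_le ha hl'16
  have hint : ∫ s in (0:ℝ)..1, bd s = 664 * KK * π ^ 2 / lam +
        4 / lam * ((∫ x in (0:ℝ)..1, |H1' x|) + ∫ x in (0:ℝ)..1, |H2' x|) +
        2 * ((∑ k ∈ Finset.range m, ∫ s in (0:ℝ)..1, ∫ t in (0:ℝ)..1, (1 - rk a l s (k + 1) t)) +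
          ∫ s in (0:ℝ)..1, ∫ t in (0:ℝ)..1, (1 - rk a lam s (m + 1) t)) := by
    rw [hbd]
    simp only [hsplit]
    rw [intervalIntegral.integral_add, intervalIntegral.integral_const_mul,
      intervalIntegral.integral_add, intervalIntegral.integral_const_mul,
      intervalIntegral.integral_add, v1, v2, intervalIntegral.integral_const_mul,
      intervalIntegral.integral_add,
      intervalIntegral.integral_finsetSum, intervalIntegral.integral_const]
    · simp only [sub_zero, one_smul]
      ring
    · intro k _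
      exact (i3 l k).intervalIntegrable 0 1
    · exact i4.intervalIntegrable 0 1
    · exact i5.intervalIntegrable 0 1
    · exact i1.intervalIntegrable 0 1
    · exact i2.intervalIntegrable 0 1
    · exact intervalIntegrable_const
    · exact (continuous_const.mul (i1.add i2)).intervalIntegrable 0 1
    · exact (continuous_const.mul (continuous_const.add
        (continuous_const.mul (i1.add i2)))).intervalIntegrable 0 1
    · exact (continuous_const.mul (i4.add i5)).intervalIntegrable 0 1
  rw [hint]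
  have hsum : ∑ k ∈ Finset.range m, ∫ s in (0:ℝ)..1, ∫ t in (0:ℝ)..1, (1 - rk a l s (k + 1) t) ≤
      m * (l / |a|) := by
    calc _ ≤ ∑ k ∈ Finset.range m, l / |a| := Finset.sum_le_sum fun k _ => v3 l hl k
      _ = _ := by rw [Finset.sum_const, Finset.card_range, nsmul_eq_mul]
  have hlast := v3 lam hlam16 m
  linarith

end Pool.Agent.N15.SM
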