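import Mathlib
import Pool.Agent.V1152.SMIF
import Pool.Agent.N15.SM.Corr2

set_option autoImplicit false

/-!
# Standard map: mixing of boxes with an error of the order `|a| ^ (-1/2) + k / |a|`
-/

namespace Pool.Agent.N15.SM

open Real MeasureTheory Function Pool.Agent.TH705.SM Pool.Agent.V1152.SMI Filter Topology
open scoped ENNReal

/-- the constant -/
noncomputable def CD : ℝ := 4 + 4 * l0 + 1328 * KK * π ^ 2

theorem CD_ge : 4 * l0 ≤ CD ∧ 1328 * KK * π ^ 2 + 4 ≤ CD ∧ 16 ≤ CD := by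
  have h1 := l0_ge
  have h2 := KK_one
  have h3 : 0 ≤ 1328 * KK * π ^ 2 := by positivity
  unfold CD
  refine ⟨?_, ?_, ?_⟩ <;> linarith

theorem CD_pos : 0 < CD := by
  have := CD_ge.2.2
  linarith

/-- the correlations of two observables -/
theorem corr_obs2 {a l lam : ℝ} (hl' : l0 ≤ l) (hlam : l ≤ lam) (hla : lam ≤ |a|) {k : ℕ}
    (hk : 3 ≤ k)
    {g : UnitAddCircle → ℝ} (hg : Continuous g) (hg1 : ∀ x, |g x| ≤ 1)
    {H H' : ℝ → ℝ} (d : ∀ x, HasDerivAt H (H' x) x) (c : Continuous H') (p : Periodic H 1)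
    (p' : Periodic H' 1) (b : ∀ x, |H x| ≤ 1) {Dv : ℝ} (hD : ∫ x in (0:ℝ)..1, |H' x| ≤ Dv)
    {g2 : UnitAddCircle → ℝ} (hg2 : Continuous g2) (hg21 : ∀ x, |g2 x| ≤ 1)
    {H2 H2' : ℝ → ℝ} (d2 : ∀ x, HasDerivAt H2 (H2' x) x) (c2 : Continuous H2')
    (p2 : Periodic H2 1) (p2' : Periodic H2' 1) (b2 : ∀ x, |H2 x| ≤ 1)
    (hD2 : ∫ x in (0:ℝ)..1, |H2' x| ≤ Dv) :
    |∫ q : T2, (g (((S a)^[k] q).1) * p.lift (((S a)^[k] q).2) -
      (∫ x, g x) * ∫ y : UnitAddCircle, p.lift y) * (g2 q.1 * p2.lift q.2)| ≤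
      2 * (664 * KK * π ^ 2 / lam + 8 * Dv / lam + 2 * (k * (l / |a|) + lam / |a|)) := by
  obtain ⟨m, rfl⟩ : ∃ m, k = m + 3 := ⟨k - 3, by omega⟩
  have hl : 16 ≤ l := l0_ge.trans hl'
  have hl0 : 0 < l := by linarith
  have hlam0 : 0 < lam := by linarith
  have ha : 0 < |a| := by linarith
  have hHc : Continuous H := continuous_iff_continuousAt.2 fun t => (d t).continuousAt
  have hH2c : Continuous H2 := continuous_iff_continuousAt.2 fun t => (d2 t).continuousAt
  have hlc := lift_cont p hHc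
  have hlc2 := lift_cont p2 hH2c
  have hla1 := lift_abs_le p b
  have hone : Periodic (fun _ : ℝ => (1:ℝ)) 1 := fun _ => rfl
  have hzero : Periodic (fun _ : ℝ => (0:ℝ)) 1 := fun _ => rfl
  have honel : ∀ y : UnitAddCircle, hone.lift y = 1 := by
    intro y
    induction y using QuotientAddGroup.induction_on with
    | H t => rfl
  set gb := ∫ x, g x with hgb
  set Hb := ∫ y : UnitAddCircle, p.lift y with hHb
  have hgb1 : |gb| ≤ 1 := by
    have := norm_integral_le_of_norm_le_const (μ := (volume : Measure UnitAddCircle)) (f := g)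
      (C := 1) (Filter.Eventually.of_forall fun x => by rw [norm_eq_abs]; exact hg1 x)
    simpa using this
  have hD0 : 0 ≤ ∫ x in (0:ℝ)..1, |H' x| :=
    intervalIntegral.integral_nonneg (by norm_num) fun x _ => abs_nonneg _
  have t1 := corr2 hl' hlam hla (m + 1) hg hg2 hg1 hg21 d c p p' b d2 c2 p2 p2' b2
  have t3 := corr2 hl' hlam hla m hlc hg2 hla1 hg21 (H1 := fun _ => 1) (H1' := fun _ => 0)
    (fun x => hasDerivAt_const x 1) continuous_const hone hzero (fun _ => by norm_num)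
    d2 c2 p2 p2' b2
  simp only [honel, mul_one, abs_zero, intervalIntegral.integral_zero, zero_add] at t3
  rw [← hgb] at t1
  rw [← hHb] at t3
  have hit := (S_cont a).iterate (m + 2 + 1)
  have hit1 := (S_cont a).iterate (m + 2)
  have k1 : Continuous (fun q : T2 => g (((S a)^[m + 2 + 1] q).1)) :=
    hg.comp (continuous_fst.comp hit)
  have k2 : Continuous (fun q : T2 => p.lift (((S a)^[m + 2 + 1] q).2)) :=
    hlc.comp (continuous_snd.comp hit)
  have k3 : Continuous (fun q : T2 => p.lift (((S a)^[m + 2] q).1)) :=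
    hlc.comp (continuous_fst.comp hit1)
  have k4 : Continuous (fun q : T2 => g2 q.1 * p2.lift q.2) :=
    (hg2.comp continuous_fst).mul (hlc2.comp continuous_snd)
  have i1 : Integrable (fun q : T2 => (g (((S a)^[m + 2 + 1] q).1) - gb) *
      p.lift (((S a)^[m + 2 + 1] q).2) * (g2 q.1 * p2.lift q.2)) :=
    integrable_cont (((k1.sub continuous_const).mul k2).mul k4)
  have i3 : Integrable (fun q : T2 => gb * ((p.lift (((S a)^[m + 2] q).1) - Hb) *
      (g2 q.1 * p2.lift q.2))) :=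
    integrable_cont (continuous_const.mul ((k3.sub continuous_const).mul k4))
  have e : ∫ q : T2, (g (((S a)^[m + 3] q).1) * p.lift (((S a)^[m + 3] q).2) -
      gb * Hb) * (g2 q.1 * p2.lift q.2) =
      (∫ q : T2, (g (((S a)^[m + 2 + 1] q).1) - gb) * p.lift (((S a)^[m + 2 + 1] q).2) *
        (g2 q.1 * p2.lift q.2)) +
      gb * ∫ q : T2, (p.lift (((S a)^[m + 2] q).1) - Hb) * (g2 q.1 * p2.lift q.2) := by
    rw [← integral_const_mul gb (fun q : T2 => (p.lift (((S a)^[m + 2] q).1) - Hb) *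
      (g2 q.1 * p2.lift q.2)), ← integral_add i1 i3]
    apply integral_congr_ae
    refine Filter.Eventually.of_forall fun q => ?_
    simp only
    rw [← S_snd a (m + 2) q]
    ring
  have t1' : |∫ q : T2, (g (((S a)^[m + 2 + 1] q).1) - gb) * p.lift (((S a)^[m + 2 + 1] q).2) *
        (g2 q.1 * p2.lift q.2)| ≤ 664 * KK * π ^ 2 / lam +
        4 / lam * ((∫ x in (0:ℝ)..1, |H' x|) + ∫ x in (0:ℝ)..1, |H2' x|) +
        2 * (((m + 1 : ℕ) : ℝ) * (l / |a|) + lam / |a|) := t1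
  rw [e]
  refine (abs_add_le _ _).trans ?_
  rw [abs_mul]
  have h1 : |gb| * |∫ q : T2, (p.lift (((S a)^[m + 2] q).1) - Hb) * (g2 q.1 * p2.lift q.2)| ≤
      |∫ q : T2, (p.lift (((S a)^[m + 2] q).1) - Hb) * (g2 q.1 * p2.lift q.2)| := by
    have := mul_le_mul_of_nonneg_right hgb1
      (abs_nonneg (∫ q : T2, (p.lift (((S a)^[m + 2] q).1) - Hb) * (g2 q.1 * p2.lift q.2)))
    rwa [one_mul] at this
  have hla0 : 0 ≤ l / |a| := by positivity
  have h4l : 0 < 4 / lam := by positivity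
  have h2 : 4 / lam * ((∫ x in (0:ℝ)..1, |H' x|) + ∫ x in (0:ℝ)..1, |H2' x|) ≤ 8 * Dv / lam := by
    calc 4 / lam * ((∫ x in (0:ℝ)..1, |H' x|) + ∫ x in (0:ℝ)..1, |H2' x|) ≤
          4 / lam * (Dv + Dv) :=
          mul_le_mul_of_nonneg_left (add_le_add hD hD2) h4l.le
      _ = 8 * Dv / lam := by ring
  have h3 : 4 / lam * (∫ x in (0:ℝ)..1, |H2' x|) ≤ 8 * Dv / lam := by
    refine le_trans ?_ h2
    apply mul_le_mul_of_nonneg_left _ h4l.le
    linarith
  have h5 : ((m + 1 : ℕ) : ℝ) * (l / |a|) ≤ ((m + 3 : ℕ) : ℝ) * (l / |a|) := by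
    apply mul_le_mul_of_nonneg_right _ hla0
    push_cast
    linarith
  have h6 : (m : ℝ) * (l / |a|) ≤ ((m + 3 : ℕ) : ℝ) * (l / |a|) := by
    apply mul_le_mul_of_nonneg_right _ hla0
    push_cast
    linarith
  linarith

/-- decay of correlations, for continuous observables -/
theorem mix2 {a : ℝ} (ha : 1 ≤ |a|) {k : ℕ} (hk : 3 ≤ k)
    {g : UnitAddCircle → ℝ} (hg : Continuous g) (hg1 : ∀ x, |g x| ≤ 1)
    {H H' : ℝ → ℝ} (d : ∀ x, HasDerivAt H (H' x) x) (c : Continuous H') (p : Periodic H 1)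
    (p' : Periodic H' 1) (b : ∀ x, |H x| ≤ 1) {Dv : ℝ} (hD : ∫ x in (0:ℝ)..1, |H' x| ≤ Dv)
    {g2 : UnitAddCircle → ℝ} (hg2 : Continuous g2) (hg21 : ∀ x, |g2 x| ≤ 1)
    {H2 H2' : ℝ → ℝ} (d2 : ∀ x, HasDerivAt H2 (H2' x) x) (c2 : Continuous H2')
    (p2 : Periodic H2 1) (p2' : Periodic H2' 1) (b2 : ∀ x, |H2 x| ≤ 1)
    (hD2 : ∫ x in (0:ℝ)..1, |H2' x| ≤ Dv) :
    |∫ q : T2, (g (((S a)^[k] q).1) * p.lift (((S a)^[k] q).2) -
      (∫ x, g x) * ∫ y : UnitAddCircle, p.lift y) * (g2 q.1 * p2.lift q.2)| ≤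
      CD * (1 + Dv) * (1 / √|a| + k / |a|) := by
  have ha0 : 0 < |a| := by linarith
  have hD0 : 0 ≤ Dv := le_trans
    (intervalIntegral.integral_nonneg (by norm_num) fun x _ => abs_nonneg _) hD
  have hl0 := l0_ge
  obtain ⟨hC1, hC2, hC3⟩ := CD_ge
  have hCp := CD_pos
  have hk0 : (0 : ℝ) < k := by
    have : 0 < k := by omega
    exact_mod_cast this
  obtain ⟨s, hs⟩ : ∃ s : ℝ, s = √|a| := ⟨_, rfl⟩
  have hs1 : 1 ≤ s := by rw [hs]; exact Real.one_le_sqrt.2 ha
  have hs0 : 0 < s := by linarith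
  have hs2 : s ^ 2 = |a| := by rw [hs]; exact Real.sq_sqrt ha0.le
  rw [← hs]
  have hka : 0 ≤ (k : ℝ) / |a| := by positivity
  by_cases hcase : l0 ≤ s
  · have hsa : s ≤ |a| := by nlinarith
    have h1 := corr_obs2 le_rfl hcase hsa hk hg hg1 d c p p' b hD hg2 hg21 d2 c2 p2 p2' b2 hD2
    refine h1.trans ?_
    have e1 : s / |a| = 1 / s := by
      rw [← hs2]
      field_simp
    have e : 2 * (664 * KK * π ^ 2 / s + 8 * Dv / s + 2 * (k * (l0 / |a|) + s / |a|)) =
        (1328 * KK * π ^ 2 + 4 + 16 * Dv) * (1 / s) + 4 * l0 * (k / |a|) := by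
      rw [e1]
      ring
    rw [e, mul_add]
    apply add_le_add
    · apply mul_le_mul_of_nonneg_right _ (by positivity)
      nlinarith
    · apply mul_le_mul_of_nonneg_right _ hka
      nlinarith
  · rw [not_le] at hcase
    have hla1 := lift_abs_le p b
    have hla2 := lift_abs_le p2 b2
    have hcc1 : |(∫ x, g x) * ∫ y : UnitAddCircle, p.lift y| ≤ 1 := by
      rw [abs_mul]
      have h1 := int_abs_le hg1
      have h2 := int_abs_le hla1
      nlinarith [abs_nonneg (∫ x, g x), abs_nonneg (∫ y : UnitAddCircle, p.lift y)]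
    have h1 : |∫ q : T2, (g (((S a)^[k] q).1) * p.lift (((S a)^[k] q).2) -
      (∫ x, g x) * ∫ y : UnitAddCircle, p.lift y) * (g2 q.1 * p2.lift q.2)| ≤ 2 := by
      have := norm_integral_le_of_norm_le_const (μ := (volume : Measure T2))
        (f := fun q : T2 => (g (((S a)^[k] q).1) * p.lift (((S a)^[k] q).2) -
          (∫ x, g x) * ∫ y : UnitAddCircle, p.lift y) * (g2 q.1 * p2.lift q.2)) (C := 2)
        (Filter.Eventually.of_forall fun q => by
          rw [norm_eq_abs, abs_mul, abs_mul (g2 q.1)]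
          have j1 : |g (((S a)^[k] q).1) * p.lift (((S a)^[k] q).2)| ≤ 1 := by
            rw [abs_mul]
            nlinarith [hg1 (((S a)^[k] q).1), hla1 (((S a)^[k] q).2),
              abs_nonneg (g (((S a)^[k] q).1)), abs_nonneg (p.lift (((S a)^[k] q).2))]
          have j2 : |g (((S a)^[k] q).1) * p.lift (((S a)^[k] q).2) -
              (∫ x, g x) * ∫ y : UnitAddCircle, p.lift y| ≤ 2 := by
            have a1 := abs_le.1 j1
            have a2 := abs_le.1 hcc1
            rw [abs_le]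
            constructor <;> linarith
          have j3 : |g2 q.1| * |p2.lift q.2| ≤ 1 := by
            nlinarith [hg21 q.1, hla2 q.2, abs_nonneg (g2 q.1), abs_nonneg (p2.lift q.2)]
          nlinarith [abs_nonneg (g (((S a)^[k] q).1) * p.lift (((S a)^[k] q).2) -
              (∫ x, g x) * ∫ y : UnitAddCircle, p.lift y),
              mul_nonneg (abs_nonneg (g2 q.1)) (abs_nonneg (p2.lift q.2))])
      simpa using this
    refine h1.trans ?_
    have h5 : 2 ≤ CD * (1 / s) := by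
      rw [mul_one_div, le_div_iff₀ hs0]
      nlinarith
    have h6 : CD * (1 / s) ≤ CD * (1 + Dv) * (1 / s + k / |a|) := by
      rw [mul_assoc]
      apply mul_le_mul_of_nonneg_left _ hCp.le
      have h7 : 0 < 1 / s := by positivity
      nlinarith [mul_nonneg hD0 h7.le, mul_nonneg hD0 hka]
    linarith

/-- **Mixing of boxes for finitely many times.** -/
theorem mix_box2 {a : ℝ} (ha : 1 ≤ |a|) {k : ℕ} (hk : 3 ≤ k)
    {E J E' J' : Set UnitAddCircle} (hE : MeasurableSet E) (hJ : MeasurableSet J)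
    (hE' : MeasurableSet E') (hJ' : MeasurableSet J') {Dv : ℝ}
    (happ : Smoothable J Dv) (happ' : Smoothable J' Dv) :
    |volume.real ((S a)^[k] ⁻¹' (E ×ˢ J) ∩ (E' ×ˢ J')) -
      (volume.real E * volume.real J) * (volume.real E' * volume.real J')| ≤
      CD * (1 + Dv) * (1 / √|a| + k / |a|) := by
  apply le_of_forall_pos_le_add
  intro δ hδ
  obtain ⟨g, H, H', p, hg, hg1, d, c, p', b, hD, hGF⟩ :=
    approx_box hE hJ happ (δ := δ / 4) (by positivity)
  obtain ⟨g2, H2, H2', p2, hg2, hg21, d2, c2, p2', b2, hD2, hGF2⟩ :=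
    approx_box hE' hJ' happ' (δ := δ / 4) (by positivity)
  have hmain := mix2 ha hk hg hg1 d c p p' b hD hg2 hg21 d2 c2 p2 p2' b2 hD2
  have hHc : Continuous H := continuous_iff_continuousAt.2 fun t => (d t).continuousAt
  have hHc2 : Continuous H2 := continuous_iff_continuousAt.2 fun t => (d2 t).continuousAt
  have hla1 := lift_abs_le p b
  have hla2 := lift_abs_le p2 b2
  set F : T2 → ℝ := fun q => g q.1 * p.lift q.2 with hF
  set F2 : T2 → ℝ := fun q => g2 q.1 * p2.lift q.2 with hF2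
  have mF : Measurable F := (obs_meas hg hHc p).measurable
  have mF2 : Measurable F2 := (obs_meas hg2 hHc2 p2).measurable
  have bF : ∀ q, |F q| ≤ 1 := by
    intro q
    show |g q.1 * p.lift q.2| ≤ 1
    rw [abs_mul]
    nlinarith [hg1 q.1, hla1 q.2, abs_nonneg (g q.1), abs_nonneg (p.lift q.2)]
  have bF2 : ∀ q, |F2 q| ≤ 1 := by
    intro q
    show |g2 q.1 * p2.lift q.2| ≤ 1
    rw [abs_mul]
    nlinarith [hg21 q.1, hla2 q.2, abs_nonneg (g2 q.1), abs_nonneg (p2.lift q.2)]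
  have mG := iB_meas hE hJ
  have mG2 := iB_meas hE' hJ'
  have mS := (iter_mp a k).measurable
  have iG := hint mG 1 (iB_abs E J)
  have iG2 := hint mG2 1 (iB_abs E' J')
  have iF := hint mF 1 bF
  have iF2 := hint mF2 1 bF2
  have hcomp : ∀ f : T2 → ℝ, Measurable f → ∫ q, f ((S a)^[k] q) = ∫ q, f q := by
    intro f hf
    have h4 := (iter_mp a k).map_eq
    calc ∫ q : T2, f ((S a)^[k] q) = ∫ q, f q ∂(Measure.map ((S a)^[k]) volume) := by
          rw [integral_map mS.aemeasurable hf.aestronglyMeasurable]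
      _ = _ := by rw [h4]
  have hG0 := iB_int hE hJ
  have hG20 := iB_int hE' hJ'
  have hF0 : ∫ q, F q = (∫ x, g x) * ∫ y : UnitAddCircle, p.lift y := obs_int
  rw [← hF0] at hmain
  have hGI : ∫ q, iB E J ((S a)^[k] q) * iB E' J' q =
      volume.real ((S a)^[k] ⁻¹' (E ×ˢ J) ∩ (E' ×ˢ J')) := by
    have e : (fun q => iB E J ((S a)^[k] q) * iB E' J' q) =
        ((S a)^[k] ⁻¹' (E ×ˢ J) ∩ (E' ×ˢ J')).indicator (fun _ => (1:ℝ)) := by
      funext q
      rw [iB_eq, iB_eq]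
      by_cases h1 : (S a)^[k] q ∈ E ×ˢ J <;> by_cases h2 : q ∈ E' ×ˢ J' <;>
        simp [Set.indicator, Set.mem_preimage, h1, h2]
    rw [e, integral_indicator ((mS (hE.prod hJ)).inter (hE'.prod hJ')), setIntegral_const,
      smul_eq_mul, mul_one]
  rw [← hGI, ← hG0, ← hG20]
  have iGG : Integrable (fun q => iB E J ((S a)^[k] q) * iB E' J' q) := by
    refine hint ((mG.comp mS).mul mG2) 1 fun q => ?_
    show |iB E J ((S a)^[k] q) * iB E' J' q| ≤ 1
    rw [abs_mul]
    nlinarith [iB_abs E J ((S a)^[k] q), iB_abs E' J' q, abs_nonneg (iB E J ((S a)^[k] q)),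
      abs_nonneg (iB E' J' q)]
  have iFF : Integrable (fun q => F ((S a)^[k] q) * F2 q) := by
    refine hint ((mF.comp mS).mul mF2) 1 fun q => ?_
    show |F ((S a)^[k] q) * F2 q| ≤ 1
    rw [abs_mul]
    nlinarith [bF ((S a)^[k] q), bF2 q, abs_nonneg (F ((S a)^[k] q)), abs_nonneg (F2 q)]
  have k1 : |(∫ q, iB E J ((S a)^[k] q) * iB E' J' q) - ∫ q, F ((S a)^[k] q) * F2 q| ≤
      δ / 2 := by
    rw [← integral_sub iGG iFF]
    refine (abs_integral_le_integral_abs).trans ?_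
    have iu : Integrable (fun q => |iB E J ((S a)^[k] q) - F ((S a)^[k] q)|) :=
      hint (((mG.comp mS).sub (mF.comp mS)).abs) 2 fun q => by
        show |(|iB E J ((S a)^[k] q) - F ((S a)^[k] q)|)| ≤ 2
        rw [abs_abs]
        have h1 := abs_le.1 (iB_abs E J ((S a)^[k] q))
        have h2 := abs_le.1 (bF ((S a)^[k] q))
        rw [abs_le]
        constructor <;> linarith
    have iv : Integrable (fun q => |iB E' J' q - F2 q|) := (iG2.sub iF2).abs
    have h1 : ∫ q, |iB E J ((S a)^[k] q) * iB E' J' q - F ((S a)^[k] q) * F2 q| ≤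
        ∫ q, (|iB E J ((S a)^[k] q) - F ((S a)^[k] q)| + |iB E' J' q - F2 q|) := by
      apply integral_mono (iGG.sub iFF).abs (iu.add iv)
      intro q
      change |iB E J ((S a)^[k] q) * iB E' J' q - F ((S a)^[k] q) * F2 q| ≤
        |iB E J ((S a)^[k] q) - F ((S a)^[k] q)| + |iB E' J' q - F2 q|
      have e : iB E J ((S a)^[k] q) * iB E' J' q - F ((S a)^[k] q) * F2 q =
          (iB E J ((S a)^[k] q) - F ((S a)^[k] q)) * iB E' J' q +
            F ((S a)^[k] q) * (iB E' J' q - F2 q) := by ring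
      rw [e]
      refine (abs_add_le _ _).trans ?_
      rw [abs_mul, abs_mul]
      have h2 := mul_le_mul_of_nonneg_left (iB_abs E' J' q)
        (abs_nonneg (iB E J ((S a)^[k] q) - F ((S a)^[k] q)))
      have h3 := mul_le_mul_of_nonneg_right (bF ((S a)^[k] q)) (abs_nonneg (iB E' J' q - F2 q))
      linarith
    refine h1.trans ?_
    rw [integral_add iu iv, hcomp (fun q => |iB E J q - F q|) ((mG.sub mF).abs)]
    linarith
  have k2 : |(∫ q, iB E J q) - ∫ q, F q| ≤ δ / 4 := by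
    rw [← integral_sub iG iF]
    exact (abs_integral_le_integral_abs).trans hGF
  have k3 : |(∫ q, iB E' J' q) - ∫ q, F2 q| ≤ δ / 4 := by
    rw [← integral_sub iG2 iF2]
    exact (abs_integral_le_integral_abs).trans hGF2
  have hF2c : Continuous F2 := obs_meas hg2 hHc2 p2
  have e2 : ∫ q : T2, (g (((S a)^[k] q).1) * p.lift (((S a)^[k] q).2) - ∫ q, F q) *
      (g2 q.1 * p2.lift q.2) = (∫ q, F ((S a)^[k] q) * F2 q) - (∫ q, F q) * ∫ q, F2 q := by
    rw [← integral_const_mul, ← integral_sub iFF (iF2.const_mul _)]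
    apply integral_congr_ae
    refine Eventually.of_forall fun q => ?_
    simp only [hF, hF2]
    ring
  rw [e2] at hmain
  have b0 : |∫ q, iB E' J' q| ≤ 1 := by
    have := norm_integral_le_of_norm_le_const (μ := (volume : Measure T2)) (f := iB E' J')
      (C := 1) (Eventually.of_forall fun x => by rw [norm_eq_abs]; exact iB_abs E' J' x)
    simpa using this
  have b1 : |∫ q, F q| ≤ 1 := by
    have := norm_integral_le_of_norm_le_const (μ := (volume : Measure T2)) (f := F)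
      (C := 1) (Eventually.of_forall fun x => by rw [norm_eq_abs]; exact bF x)
    simpa using this
  have e : (∫ q, iB E J ((S a)^[k] q) * iB E' J' q) - (∫ q, iB E J q) * ∫ q, iB E' J' q =
      ((∫ q, iB E J ((S a)^[k] q) * iB E' J' q) - ∫ q, F ((S a)^[k] q) * F2 q) +
      ((∫ q, F ((S a)^[k] q) * F2 q) - (∫ q, F q) * ∫ q, F2 q) +
      (-(((∫ q, iB E J q) - ∫ q, F q) * ∫ q, iB E' J' q) +
        -((∫ q, F q) * ((∫ q, iB E' J' q) - ∫ q, F2 q))) := by ring
  rw [e]
  have k4 : |((∫ q, iB E J q) - ∫ q, F q) * ∫ q, iB E' J' q| ≤ δ / 4 := by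
    rw [abs_mul]
    nlinarith [abs_nonneg ((∫ q, iB E J q) - ∫ q, F q), abs_nonneg (∫ q, iB E' J' q)]
  have k5 : |(∫ q, F q) * ((∫ q, iB E' J' q) - ∫ q, F2 q)| ≤ δ / 4 := by
    rw [abs_mul]
    nlinarith [abs_nonneg ((∫ q, iB E' J' q) - ∫ q, F2 q), abs_nonneg (∫ q, F q)]
  have t1 := abs_add_le
    (((∫ q, iB E J ((S a)^[k] q) * iB E' J' q) - ∫ q, F ((S a)^[k] q) * F2 q) +
      ((∫ q, F ((S a)^[k] q) * F2 q) - (∫ q, F q) * ∫ q, F2 q))
    (-(((∫ q, iB E J q) - ∫ q, F q) * ∫ q, iB E' J' q) +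
        -((∫ q, F q) * ((∫ q, iB E' J' q) - ∫ q, F2 q)))
  have t2 := abs_add_le
    ((∫ q, iB E J ((S a)^[k] q) * iB E' J' q) - ∫ q, F ((S a)^[k] q) * F2 q)
      ((∫ q, F ((S a)^[k] q) * F2 q) - (∫ q, F q) * ∫ q, F2 q)
  have t3 := abs_add_le (-(((∫ q, iB E J q) - ∫ q, F q) * ∫ q, iB E' J' q))
        (-((∫ q, F q) * ((∫ q, iB E' J' q) - ∫ q, F2 q)))
  rw [abs_neg, abs_neg] at t3
  linarith

end Pool.Agent.N15.SM
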