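import Mathlib
import Pool.Agent.N15.SM.Mix2
import Pool.Agent.N15.SM.L2

set_option autoImplicit false

/-!
# Standard map: near ergodicity on boxes
-/

namespace Pool.Agent.N15.SM

open Real MeasureTheory Function Pool.Agent.TH705.SM Pool.Agent.V1152.SMI Filter Topology
open Pool.Agent.V11103 (ergAv maximal)
open scoped ENNReal

/-- the centred indicator function of a box -/
noncomputable def fB (E J : Set UnitAddCircle) (q : T2) : ℝ :=
  iB E J q - volume.real E * volume.real J

theorem fB_meas {E J : Set UnitAddCircle} (hE : MeasurableSet E) (hJ : MeasurableSet J) :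
    Measurable (fB E J) := (iB_meas hE hJ).sub measurable_const

theorem vv_mem (E J : Set UnitAddCircle) :
    0 ≤ volume.real E * volume.real J ∧ volume.real E * volume.real J ≤ 1 := by
  have h1 : 0 ≤ volume.real E := measureReal_nonneg
  have h2 : 0 ≤ volume.real J := measureReal_nonneg
  have h3 : volume.real E ≤ 1 := measureReal_le_one
  have h4 : volume.real J ≤ 1 := measureReal_le_one
  exact ⟨mul_nonneg h1 h2, mul_le_one₀ h3 h2 h4⟩

theorem fB_abs (E J : Set UnitAddCircle) (q : T2) : |fB E J q| ≤ 2 := by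
  have h1 := abs_le.1 (iB_abs E J q)
  have h2 := vv_mem E J
  unfold fB
  rw [abs_le]
  constructor <;> linarith

/-- the bound of the correlations for the lags below `n` -/
noncomputable def BB (a Dv : ℝ) (n : ℕ) : ℝ := CD * (1 + Dv) * (1 / √|a| + n / |a|)

theorem BB_nonneg (a : ℝ) {Dv : ℝ} (hD : 0 ≤ Dv) (n : ℕ) : 0 ≤ BB a Dv n := by
  have := CD_pos
  unfold BB
  positivity

theorem fB_corr {a : ℝ} (ha : 1 ≤ |a|) {E J : Set UnitAddCircle} (hE : MeasurableSet E)
    (hJ : MeasurableSet J) {Dv : ℝ} (hD : 0 ≤ Dv) (happ : Smoothable J Dv) {n : ℕ} (k : ℕ)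
    (hk : 3 ≤ k) (hkn : k < n) : |∫ q, fB E J ((S a)^[k] q) * fB E J q| ≤ BB a Dv n := by
  have ha0 : 0 < |a| := by linarith
  have hCD := CD_pos
  have h1 := mix_box2 ha hk hE hJ hE hJ happ happ
  have mG := iB_meas hE hJ
  have mS := (iter_mp a k).measurable
  have iG := hint mG 1 (iB_abs E J)
  have iGG : Integrable (fun q => iB E J ((S a)^[k] q) * iB E J q) := by
    refine hint ((mG.comp mS).mul mG) 1 fun q => ?_
    show |iB E J ((S a)^[k] q) * iB E J q| ≤ 1
    rw [abs_mul]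
    nlinarith [iB_abs E J ((S a)^[k] q), iB_abs E J q, abs_nonneg (iB E J ((S a)^[k] q)),
      abs_nonneg (iB E J q)]
  have iGk : Integrable (fun q => iB E J ((S a)^[k] q)) :=
    hint (mG.comp mS) 1 fun q => iB_abs E J _
  have hG0 := iB_int hE hJ
  have hGk : ∫ q, iB E J ((S a)^[k] q) = volume.real E * volume.real J := by
    rw [← hG0]
    exact int_comp (S_mp a) k mG
  have hGI : ∫ q, iB E J ((S a)^[k] q) * iB E J q =
      volume.real ((S a)^[k] ⁻¹' (E ×ˢ J) ∩ (E ×ˢ J)) := by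
    have e : (fun q => iB E J ((S a)^[k] q) * iB E J q) =
        ((S a)^[k] ⁻¹' (E ×ˢ J) ∩ (E ×ˢ J)).indicator (fun _ => (1:ℝ)) := by
      funext q
      rw [iB_eq]
      by_cases h1 : (S a)^[k] q ∈ E ×ˢ J <;> by_cases h2 : q ∈ E ×ˢ J <;>
        simp [Set.indicator, Set.mem_preimage, h1, h2]
    rw [e, integral_indicator ((mS (hE.prod hJ)).inter (hE.prod hJ)), setIntegral_const,
      smul_eq_mul, mul_one]
  set v := volume.real E * volume.real J with hv
  have e : ∫ q, fB E J ((S a)^[k] q) * fB E J q =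
      volume.real ((S a)^[k] ⁻¹' (E ×ˢ J) ∩ (E ×ˢ J)) - v * v := by
    have e1 : ∀ q, fB E J ((S a)^[k] q) * fB E J q = iB E J ((S a)^[k] q) * iB E J q -
        (v * iB E J ((S a)^[k] q) + v * iB E J q - v * v) := by
      intro q
      unfold fB
      ring
    simp_rw [e1]
    have i1 : Integrable (fun q => v * iB E J ((S a)^[k] q) + v * iB E J q) :=
      (iGk.const_mul v).add (iG.const_mul v)
    have i2 : Integrable (fun q => v * iB E J ((S a)^[k] q) + v * iB E J q - v * v) :=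
      i1.sub (integrable_const _)
    rw [integral_sub iGG i2, integral_sub i1 (integrable_const _),
      integral_add (iGk.const_mul v) (iG.const_mul v), integral_const_mul, integral_const_mul,
      hGI, hGk, hG0, integral_const]
    simp
  rw [e]
  refine h1.trans ?_
  unfold BB
  apply mul_le_mul_of_nonneg_left _ (by positivity)
  have : (k : ℝ) / |a| ≤ n / |a| := by
    apply div_le_div_of_nonneg_right _ ha0.le
    exact_mod_cast hkn.le
  linarith

/-- the number of times -/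
theorem exists_time {a : ℝ} (ha : 1 ≤ |a|) : ∃ n : ℕ, 1 ≤ n ∧ √|a| ≤ n ∧ (n : ℝ) ≤ 2 * √|a| := by
  have h1 : 1 ≤ √|a| := Real.one_le_sqrt.2 ha
  refine ⟨⌈√|a|⌉₊, ?_, Nat.le_ceil _, ?_⟩
  · exact Nat.one_le_ceil_iff.2 (by linarith)
  · have := (Nat.ceil_lt_add_one (by linarith : 0 ≤ √|a|)).le
    linarith

theorem BB_le {a : ℝ} (ha : 1 ≤ |a|) {Dv : ℝ} (hD : 0 ≤ Dv) {n : ℕ} (hn : (n : ℝ) ≤ 2 * √|a|) :
    BB a Dv n ≤ 3 * CD * (1 + Dv) * (1 / √|a|) := by
  have ha0 : 0 < |a| := by linarith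
  have hCD := CD_pos
  have hs0 : 0 < √|a| := Real.sqrt_pos.2 ha0
  have h1 : (n : ℝ) / |a| ≤ 2 * (1 / √|a|) := by
    rw [div_le_iff₀ ha0]
    have e : 2 * (1 / √|a|) * |a| = 2 * √|a| := by
      have h2 : |a| = √|a| * √|a| := (Real.mul_self_sqrt ha0.le).symm
      rw [div_eq_mul_inv]
      nth_rw 2 [h2]
      field_simp
    rw [e]
    exact hn
  unfold BB
  have := mul_le_mul_of_nonneg_left h1 (by positivity : 0 ≤ CD * (1 + Dv))
  nlinarith

/-- the constant -/
noncomputable def CE (Dv : ℝ) : ℝ := 40 + 12 * CD * (1 + Dv)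

theorem CE_pos {Dv : ℝ} (hD : 0 ≤ Dv) : 0 < CE Dv := by
  have := CD_pos
  unfold CE
  positivity

/-- **the second moment of the deviation of the averages** -/
theorem box_L2 {a : ℝ} (ha : 1 ≤ |a|) {E J : Set UnitAddCircle} (hE : MeasurableSet E)
    (hJ : MeasurableSet J) {Dv : ℝ} (hD : 0 ≤ Dv) (happ : Smoothable J Dv) {N : ℕ} (hN : 1 ≤ N) :
    ∫ q, ergAv (S a) (fB E J) N q ^ 2 ≤ CE Dv * (1 / N + 1 / √|a|) := by
  obtain ⟨n, hn1, hn2, hn3⟩ := exists_time ha
  have ha0 : 0 < |a| := by linarith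
  have hs0 : 0 < √|a| := Real.sqrt_pos.2 ha0
  have hCD := CD_pos
  have hN0 : (0:ℝ) < N := by exact_mod_cast hN
  have h1 := second_all (S_mp a) (fB_meas hE hJ) (fB_abs E J) hn1 (BB_nonneg a hD n)
    (fun k h1 h2 => fB_corr ha hE hJ hD happ k h1 h2) hN
  have h2 := BB_le ha hD hn3
  have h3 : 40 / (n:ℝ) ≤ 40 * (1 / √|a|) := by
    rw [mul_one_div]
    exact div_le_div_of_nonneg_left (by norm_num) hs0 hn2
  refine h1.trans ?_
  unfold CE
  have h4 : 0 ≤ 12 * CD * (1 + Dv) * (1 / (N:ℝ)) := by positivity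
  have e : 40 / (N:ℝ) = 40 * (1 / N) := by ring
  rw [e]
  nlinarith

/-- the averages at the time `n`, of the order `√|a|` -/
theorem box_n {a : ℝ} (ha : 1 ≤ |a|) {E J : Set UnitAddCircle} (hE : MeasurableSet E)
    (hJ : MeasurableSet J) {Dv : ℝ} (hD : 0 ≤ Dv) (happ : Smoothable J Dv) {n : ℕ}
    (hn1 : 1 ≤ n) (hn2 : √|a| ≤ n) :
    ∫ q, ergAv (S a) (fB E J) n q ^ 2 ≤ 2 * CE Dv * (1 / √|a|) := by
  have ha0 : 0 < |a| := by linarith
  have hs0 : 0 < √|a| := Real.sqrt_pos.2 ha0
  have h1 := box_L2 ha hE hJ hD happ hn1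
  have h2 : 1 / (n:ℝ) ≤ 1 / √|a| := one_div_le_one_div_of_le hs0 hn2
  have hC := CE_pos hD
  refine h1.trans ?_
  have := mul_le_mul_of_nonneg_left h2 hC.le
  linarith

/-- **all large times at once** -/
theorem box_all {a : ℝ} (ha : 1 ≤ |a|) {E J : Set UnitAddCircle} (hE : MeasurableSet E)
    (hJ : MeasurableSet J) {Dv : ℝ} (hD : 0 ≤ Dv) (happ : Smoothable J Dv) {ε : ℝ}
    (hε : 0 < ε) :
    volume.real {p | ∃ N : ℕ, 16 * √|a| / ε ≤ N ∧ ε < |ergAv (S a) (fB E J) N p|} ≤
      8 * CE Dv / (ε ^ 2 * √|a|) := by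
  obtain ⟨n, hn1, hn2, hn3⟩ := exists_time ha
  have ha0 : 0 < |a| := by linarith
  have hs0 : 0 < √|a| := Real.sqrt_pos.2 ha0
  have h1 := all_times (S_mp a) (fB_meas hE hJ) (M := 2) (by norm_num) (fB_abs E J) hn1
    (box_n ha hE hJ hD happ hn1 hn2) hε
  have hsub : {p : T2 | ∃ N : ℕ, 16 * √|a| / ε ≤ N ∧ ε < |ergAv (S a) (fB E J) N p|} ⊆
      {p : T2 | ∃ N : ℕ, 4 * 2 * (n:ℝ) / ε ≤ N ∧ ε < |ergAv (S a) (fB E J) N p|} := by
    rintro p ⟨N, hN, hp⟩
    refine ⟨N, le_trans ?_ hN, hp⟩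
    apply div_le_div_of_nonneg_right _ hε.le
    linarith
  refine (measureReal_mono hsub (measure_ne_top _ _)).trans (h1.trans (le_of_eq ?_))
  field_simp
  ring

/-- **invariant sets in boxes** -/
theorem box_of2 {a : ℝ} (ha : 1 ≤ |a|) {A : Set T2} (hA : MeasurableSet A) (hinv : S a ⁻¹' A = A)
    {E J : Set UnitAddCircle} (hE : MeasurableSet E) (hJ : MeasurableSet J) {Dv : ℝ}
    (hD : 0 ≤ Dv) (happ : Smoothable J Dv) :
    |volume.real (A ∩ (E ×ˢ J)) - volume.real A * (volume.real E * volume.real J)| ≤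
      √(2 * CE Dv) * √(volume.real A) * |a| ^ (-(1 / 4) : ℝ) := by
  obtain ⟨n, hn1, hn2, hn3⟩ := exists_time ha
  have ha0 : 0 < |a| := by linarith
  have hs0 : 0 < √|a| := Real.sqrt_pos.2 ha0
  have hC := CE_pos hD
  have h1 := inv_avg (S_mp a) (fB_meas hE hJ) (M := 2) (by norm_num) (fB_abs E J) hn1
    (box_n ha hE hJ hD happ hn1 hn2) hA hinv
  have iG := hint (iB_meas hE hJ) 1 (iB_abs E J)
  have e : ∫ q in A, fB E J q =
      volume.real (A ∩ (E ×ˢ J)) - volume.real A * (volume.real E * volume.real J) := by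
    unfold fB
    rw [integral_sub iG.integrableOn (integrable_const _).integrableOn, setIntegral_const,
      smul_eq_mul, iB_eq, setIntegral_indicator (hE.prod hJ), setIntegral_const, smul_eq_mul,
      mul_one]
  rw [e] at h1
  have h2 : 0 ≤ √(2 * CE Dv) * √(volume.real A) * |a| ^ (-(1 / 4) : ℝ) := by positivity
  apply abs_le_of_sq_le_sq _ h2
  refine h1.trans (le_of_eq ?_)
  rw [mul_pow, mul_pow, Real.sq_sqrt (by positivity), Real.sq_sqrt measureReal_nonneg,
    ← Real.rpow_natCast, ← Real.rpow_mul ha0.le]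
  have e2 : |a| ^ (-(1 / 4) * ((2 : ℕ) : ℝ) : ℝ) = 1 / √|a| := by
    rw [show (-(1 / 4) * ((2 : ℕ) : ℝ) : ℝ) = -(1 / 2) by norm_num, Real.rpow_neg ha0.le,
      ← Real.sqrt_eq_rpow, one_div]
  rw [e2]
  ring

/-- the bound with the smaller of the two measures -/
theorem box_min2 {a : ℝ} (ha : 1 ≤ |a|) {A : Set T2} (hA : MeasurableSet A)
    (hinv : S a ⁻¹' A = A) {E J : Set UnitAddCircle} (hE : MeasurableSet E)
    (hJ : MeasurableSet J) {Dv : ℝ} (hD0 : 0 ≤ Dv) (happ : Smoothable J Dv) :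
    |volume.real (A ∩ (E ×ˢ J)) - volume.real A * (volume.real E * volume.real J)| ≤
      √(2 * CE Dv) * √(min (volume.real A) (1 - volume.real A)) *
        |a| ^ (-(1 / 4) : ℝ) := by
  have h1 := box_of2 ha hA hinv hE hJ hD0 happ
  have hinvc : S a ⁻¹' Aᶜ = Aᶜ := by rw [Set.preimage_compl, hinv]
  have h2 := box_of2 ha hA.compl hinvc hE hJ hD0 happ
  have hc : volume.real Aᶜ = 1 - volume.real A := by
    rw [measureReal_compl hA]
    simp
  have hR : volume.real (E ×ˢ J) = volume.real E * volume.real J := by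
    have : (volume : Measure T2) (E ×ˢ J) = volume E * volume J := by
      rw [vol_T2, Measure.prod_prod]
    rw [measureReal_def, this, ENNReal.toReal_mul]
    rfl
  have hc2 : volume.real (Aᶜ ∩ (E ×ˢ J)) =
      volume.real E * volume.real J - volume.real (A ∩ (E ×ˢ J)) := by
    rw [← hR]
    have h3 := measureReal_inter_add_sdiff (μ := (volume : Measure T2)) (s := E ×ˢ J) hA
    have e1 : (E ×ˢ J) ∩ A = A ∩ (E ×ˢ J) := Set.inter_comm _ _
    have e2 : (E ×ˢ J) \ A = Aᶜ ∩ (E ×ˢ J) := by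
      rw [Set.sdiff_eq, Set.inter_comm]
    rw [e1, e2] at h3
    linarith
  rw [hc2, hc] at h2
  have e3 : volume.real E * volume.real J - volume.real (A ∩ E ×ˢ J) -
      (1 - volume.real A) * (volume.real E * volume.real J) =
      -(volume.real (A ∩ (E ×ˢ J)) - volume.real A * (volume.real E * volume.real J)) := by ring
  rw [e3, abs_neg] at h2
  rcases le_total (volume.real A) (1 - volume.real A) with h | h
  · rw [min_eq_left h]
    exact h1
  · rw [min_eq_right h]
    exact h2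

/-- the vertical slices -/
theorem slices2 {a : ℝ} (ha : 1 ≤ |a|) {A : Set T2} (hA : MeasurableSet A)
    (hinv : S a ⁻¹' A = A) :
    ∫ x : UnitAddCircle, |volume.real (Prod.mk x ⁻¹' A) - volume.real A| ≤
      2 * (√(2 * CE 0) * √(min (volume.real A) (1 - volume.real A)) * |a| ^ (-(1 / 4) : ℝ)) := by
  have hm : Measurable (fun x : UnitAddCircle => volume.real (Prod.mk x ⁻¹' A)) :=
    (measurable_measure_prodMk_left hA).ennreal_toReal
  obtain ⟨hi, -⟩ := slice_int hA (E := Set.univ) MeasurableSet.univ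
  set E : Set UnitAddCircle := {x | volume.real A ≤ volume.real (Prod.mk x ⁻¹' A)} with hEd
  have hE : MeasurableSet E := measurableSet_le measurable_const hm
  have hid : Integrable (fun x : UnitAddCircle => volume.real (Prod.mk x ⁻¹' A) - volume.real A) :=
    hi.sub (integrable_const _)
  have k : ∀ F : Set UnitAddCircle, MeasurableSet F →
      ∫ x in F, (volume.real (Prod.mk x ⁻¹' A) - volume.real A) =
        volume.real (A ∩ (F ×ˢ Set.univ)) - volume.real A * (volume.real F *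
          volume.real (Set.univ : Set UnitAddCircle)) := by
    intro F hF
    rw [integral_sub hi.integrableOn (integrable_const _).integrableOn,
      (slice_int hA hF).2, setIntegral_const, smul_eq_mul]
    have : volume.real (Set.univ : Set UnitAddCircle) = 1 := by simp
    rw [this]
    ring
  have b : ∀ F : Set UnitAddCircle, MeasurableSet F →
      |∫ x in F, (volume.real (Prod.mk x ⁻¹' A) - volume.real A)| ≤
        √(2 * CE 0) * √(min (volume.real A) (1 - volume.real A)) * |a| ^ (-(1 / 4) : ℝ) := by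
    intro F hF
    rw [k F hF]
    exact box_min2 ha hA hinv hF MeasurableSet.univ le_rfl smoothable_univ
  rw [← integral_add_compl hE hid.abs]
  have e1 : ∫ x in E, |volume.real (Prod.mk x ⁻¹' A) - volume.real A| =
      ∫ x in E, (volume.real (Prod.mk x ⁻¹' A) - volume.real A) := by
    apply setIntegral_congr_fun hE
    intro x hx
    have hx' : volume.real A ≤ volume.real (Prod.mk x ⁻¹' A) := hx
    exact abs_of_nonneg (by linarith)
  have e2 : ∫ x in Eᶜ, |volume.real (Prod.mk x ⁻¹' A) - volume.real A| =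
      -∫ x in Eᶜ, (volume.real (Prod.mk x ⁻¹' A) - volume.real A) := by
    rw [← integral_neg]
    apply setIntegral_congr_fun hE.compl
    intro x hx
    have hx' : ¬ (volume.real A ≤ volume.real (Prod.mk x ⁻¹' A)) := hx
    rw [not_le] at hx'
    exact abs_of_nonpos (by linarith)
  rw [e1, e2]
  have b1 := (abs_le.1 (b E hE)).2
  have b2 := (abs_le.1 (b Eᶜ hE.compl)).1
  linarith

/-- the horizontal slices -/
theorem slices_swap2 {a : ℝ} (ha : 1 ≤ |a|) {A : Set T2} (hA : MeasurableSet A)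
    (hinv : S a ⁻¹' A = A) :
    ∫ y : UnitAddCircle, |volume.real ((fun x => (x, y)) ⁻¹' A) - volume.real A| ≤
      2 * (√(2 * CE 0) * √(min (volume.real A) (1 - volume.real A)) * |a| ^ (-(1 / 4) : ℝ)) := by
  have h := slices2 ha (measurable_swap hA) (swap_inv hinv)
  rw [vol_swap _ hA] at h
  exact h

end Pool.Agent.N15.SM
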