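import Mathlib
import Pool.Agent.N15.SM.Box2

set_option autoImplicit false

/-!
# Standard map: all boxes of arcs at once
-/

namespace Pool.Agent.N15.SM

open Real MeasureTheory Function Pool.Agent.TH705.SM Pool.Agent.V1152.SMI Filter Topology
open Pool.Agent.V11103 (ergAv maximal)
open scoped ENNReal

theorem dist_coe_le (s t : ℝ) : dist (s : UnitAddCircle) (t : UnitAddCircle) ≤ |s - t| := by
  rw [dist_eq_norm, ← AddCircle.coe_sub, UnitAddCircle.norm_eq]
  exact round_le (s - t) 0 |>.trans (by simp)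

theorem arc_eq_ball (c w : ℝ) : arc c w = Metric.ball ((c : ℝ) : UnitAddCircle) w := by
  ext y
  constructor
  · rintro ⟨s, hs, rfl⟩
    rw [Set.mem_Ioo] at hs
    rw [Metric.mem_ball]
    refine (dist_coe_le s c).trans_lt ?_
    rw [abs_lt]
    constructor <;> linarith
  · intro hy
    induction y using QuotientAddGroup.induction_on with
    | H t =>
      have hy' : dist ((t : ℝ) : UnitAddCircle) ((c : ℝ) : UnitAddCircle) < w := hy
      rw [dist_eq_norm, ← AddCircle.coe_sub, UnitAddCircle.norm_eq] at hy'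
      refine ⟨t - round (t - c), ?_, ?_⟩
      · rw [abs_lt] at hy'
        rw [Set.mem_Ioo]
        constructor <;> linarith
      · show ((t - round (t - c) : ℝ) : UnitAddCircle) = ((t : ℝ) : UnitAddCircle)
        rw [AddCircle.coe_sub]
        have : (((round (t - c) : ℤ) : ℝ) : UnitAddCircle) = 0 := by
          rw [AddCircle.coe_eq_zero_iff]
          exact ⟨round (t - c), by simp⟩
        rw [this, sub_zero]

/-- the measure of an arc -/
noncomputable def vb (w : ℝ) : ℝ := max 0 (min 1 (2 * w))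

theorem vol_ball (x : UnitAddCircle) (w : ℝ) : volume.real (Metric.ball x w) = vb w := by
  have h1 : volume (Metric.ball x w) = volume (Metric.closedBall x w) :=
    (measure_congr (AddCircle.closedBall_ae_eq_ball (T := 1) (x := x) (ε := w))).symm
  rw [measureReal_def, h1, AddCircle.volume_closedBall, ENNReal.toReal_ofReal']
  unfold vb
  rw [max_comm]

theorem ball_univ (x : UnitAddCircle) {w : ℝ} (hw : 1 / 2 < w) :
    Metric.ball x w = Set.univ := by
  ext y
  simp only [Metric.mem_ball, Set.mem_univ, iff_true]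
  rw [dist_eq_norm]
  have := AddCircle.norm_le_half_period (1 : ℝ) (x := y - x) one_ne_zero
  rw [abs_one] at this
  linarith

theorem smooth_mono {J : Set UnitAddCircle} {D D' : ℝ} (h : Smoothable J D) (hD : D ≤ D') :
    Smoothable J D' := by
  intro δ hδ
  obtain ⟨H, H', p, d, c, p', b, hH, hJ⟩ := h δ hδ
  exact ⟨H, H', p, d, c, p', b, hH.trans hD, hJ⟩

theorem smoothable_empty : Smoothable ∅ 0 := by
  intro δ hδ
  refine ⟨fun _ => 0, fun _ => 0, fun _ => rfl, fun x => hasDerivAt_const x 0, continuous_const,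
    fun _ => rfl, fun _ => by norm_num, by simp, ?_⟩
  have h : ∀ y : UnitAddCircle, (show Periodic (fun _ : ℝ => (0:ℝ)) 1 from fun _ => rfl).lift y = 0 := by
    intro y
    induction y using QuotientAddGroup.induction_on with
    | H t => rfl
  simp only [h, Set.indicator_empty, sub_self, abs_zero, integral_zero]
  exact hδ.le

theorem smoothable_ball (x : UnitAddCircle) (w : ℝ) : Smoothable (Metric.ball x w) 2 := by
  rcases le_or_gt w 0 with h | h
  · rw [Metric.ball_eq_empty.2 h]
    exact smooth_mono smoothable_empty (by norm_num)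
  · rcases le_or_gt w (1 / 2) with h2 | h2
    · induction x using QuotientAddGroup.induction_on with
      | H t =>
        have := smoothable_arc (c := t) h h2
        rwa [arc_eq_ball] at this
    · rw [ball_univ x h2]
      exact smooth_mono smoothable_univ (by norm_num)

/-- the balls of the grid -/
noncomputable def Gq (q i j : ℕ) : Set UnitAddCircle :=
  Metric.ball (((i : ℝ) / q : ℝ) : UnitAddCircle) ((j : ℝ) / q)

theorem exists_grid (x : UnitAddCircle) {q : ℕ} (hq : 1 ≤ q) :
    ∃ i < q, dist x (((i : ℝ) / q : ℝ) : UnitAddCircle) ≤ 1 / q := by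
  have hq0 : (0:ℝ) < q := by exact_mod_cast hq
  induction x using QuotientAddGroup.induction_on with
  | H t =>
    have h1 : ((Int.fract t : ℝ) : UnitAddCircle) = ((t : ℝ) : UnitAddCircle) := by
      rw [← Int.self_sub_floor, AddCircle.coe_sub]
      have : (((⌊t⌋ : ℤ) : ℝ) : UnitAddCircle) = 0 := by
        rw [AddCircle.coe_eq_zero_iff]
        exact ⟨⌊t⌋, by simp⟩
      rw [this, sub_zero]
    have h0 := Int.fract_nonneg t
    have h2 := Int.fract_lt_one t
    set u := Int.fract t with hu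
    refine ⟨⌊u * q⌋₊, ?_, ?_⟩
    · rw [Nat.floor_lt (by positivity)]
      nlinarith
    · show dist ((t : ℝ) : UnitAddCircle) _ ≤ _
      rw [← h1]
      refine (dist_coe_le _ _).trans ?_
      have h3 := Nat.floor_le (by positivity : 0 ≤ u * q)
      have h4 := Nat.lt_floor_add_one (u * q)
      have e : u - (⌊u * q⌋₊ : ℝ) / q = (u * q - ⌊u * q⌋₊) / q := by field_simp
      rw [e, abs_div, abs_of_pos hq0, abs_of_nonneg (by linarith)]
      apply div_le_div_of_nonneg_right _ hq0.le
      linarith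

theorem vb_mono {u v : ℝ} (h : u ≤ v) : vb u ≤ vb v := by
  unfold vb
  exact max_le_max le_rfl (min_le_min le_rfl (by linarith))

theorem vb_lip {u v : ℝ} {d : ℝ} (hd : 0 ≤ d) (h : v ≤ u + d) : vb v ≤ vb u + 2 * d := by
  unfold vb
  apply max_le
  · have : 0 ≤ max 0 (min 1 (2 * u)) := le_max_left _ _
    linarith
  · rcases le_total 1 (2 * u) with h1 | h1
    · rw [min_eq_left h1]
      have : (1:ℝ) ≤ max 0 1 := le_max_right _ _
      have := min_le_left (1:ℝ) (2 * v)
      linarith
    · rw [min_eq_right h1]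
      have := le_max_right 0 (2 * u)
      have := min_le_right (1:ℝ) (2 * v)
      linarith

theorem arc_grid (x : UnitAddCircle) (w : ℝ) {q : ℕ} (hq : 1 ≤ q) :
    ∃ i < q, ∃ j₁ < q + 2, ∃ j₂ < q + 2, Gq q i j₁ ⊆ Metric.ball x w ∧
      Metric.ball x w ⊆ Gq q i j₂ ∧
      volume.real (Gq q i j₂) ≤ volume.real (Metric.ball x w) + 4 / q ∧
      volume.real (Metric.ball x w) ≤ volume.real (Gq q i j₁) + 4 / q := by
  have hq0 : (0:ℝ) < q := by exact_mod_cast hq
  -- it suffices to consider `w ≤ 1`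
  have main : ∀ w : ℝ, w ≤ 1 → ∃ i < q, ∃ j₁ < q + 2, ∃ j₂ < q + 2,
      Gq q i j₁ ⊆ Metric.ball x w ∧ Metric.ball x w ⊆ Gq q i j₂ ∧
      volume.real (Gq q i j₂) ≤ volume.real (Metric.ball x w) + 4 / q ∧
      volume.real (Metric.ball x w) ≤ volume.real (Gq q i j₁) + 4 / q := by
    intro w hw1
    obtain ⟨i, hi, hdist⟩ := exists_grid x hq
    rcases le_or_gt w 0 with h | h
    · refine ⟨i, hi, 0, by omega, 0, by omega, ?_, ?_, ?_, ?_⟩
      · unfold Gq
        simp
      · rw [Metric.ball_eq_empty.2 h]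
        exact Set.empty_subset _
      · unfold Gq
        rw [vol_ball, vol_ball]
        have h1 : vb ((0 : ℕ) / (q:ℝ)) ≤ 0 := by
          unfold vb
          simp
        have h2 : 0 ≤ vb w := le_max_left _ _
        have : 0 < 4 / (q:ℝ) := by positivity
        linarith
      · unfold Gq
        rw [vol_ball, vol_ball]
        have h1 : vb w ≤ 0 := by
          unfold vb
          rw [max_le_iff]
          exact ⟨le_rfl, (min_le_right _ _).trans (by linarith)⟩
        have h2 : 0 ≤ vb ((0 : ℕ) / (q:ℝ)) := le_max_left _ _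
        have : 0 < 4 / (q:ℝ) := by positivity
        linarith
    · have hwq : 0 < w * q := by positivity
      refine ⟨i, hi, ⌊w * q⌋₊ - 1, ?_, ⌈w * q⌉₊ + 1, ?_, ?_, ?_, ?_, ?_⟩
      · have : ⌊w * q⌋₊ ≤ q := by
          apply Nat.floor_le_of_le
          nlinarith
        omega
      · have : ⌈w * q⌉₊ ≤ q := by
          apply Nat.ceil_le.2
          nlinarith
        omega
      · intro y hy
        unfold Gq at hy
        rw [Metric.mem_ball] at hy ⊢
        have h1 := dist_triangle y (((i : ℝ) / q : ℝ) : UnitAddCircle) x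
        rw [dist_comm (((i : ℝ) / q : ℝ) : UnitAddCircle) x] at h1
        have h2 := Nat.floor_le hwq.le
        rcases Nat.eq_zero_or_pos (⌊w * q⌋₊) with h3 | h3
        · rw [h3] at hy
          simp only [zero_tsub, Nat.cast_zero, zero_div] at hy
          exact absurd hy (not_lt.2 dist_nonneg)
        · rw [Nat.cast_sub h3, Nat.cast_one, sub_div] at hy
          have h4 : (⌊w * q⌋₊ : ℝ) / q ≤ w := by
            rw [div_le_iff₀ hq0]
            exact h2
          linarith
      · intro y hy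
        unfold Gq
        rw [Metric.mem_ball] at hy ⊢
        have h1 := dist_triangle y x (((i : ℝ) / q : ℝ) : UnitAddCircle)
        have h2 := Nat.le_ceil (w * q)
        push_cast
        rw [add_div]
        have h4 : w ≤ (⌈w * q⌉₊ : ℝ) / q := by
          rw [le_div_iff₀ hq0]
          exact h2
        linarith
      · unfold Gq
        rw [vol_ball, vol_ball]
        have h2 := (Nat.ceil_lt_add_one hwq.le).le
        have h3 : ((⌈w * q⌉₊ + 1 : ℕ) : ℝ) / q ≤ w + 2 / q := by
          push_cast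
          rw [div_le_iff₀ hq0, add_mul, div_mul_cancel₀ _ hq0.ne']
          linarith
        have h4 := vb_lip (by positivity) h3
        have e : 2 * (2 / (q:ℝ)) = 4 / q := by ring
        rwa [e] at h4
      · unfold Gq
        rw [vol_ball, vol_ball]
        have h2 := (Nat.lt_floor_add_one (w * q)).le
        have h3 : w ≤ ((⌊w * q⌋₊ - 1 : ℕ) : ℝ) / q + 2 / q := by
          rw [← add_div, le_div_iff₀ hq0]
          have h5 : (⌊w * q⌋₊ : ℝ) ≤ ((⌊w * q⌋₊ - 1 : ℕ) : ℝ) + 1 := by
            have : ⌊w * q⌋₊ ≤ (⌊w * q⌋₊ - 1) + 1 := by omega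
            exact_mod_cast this
          linarith
        have h4 := vb_lip (by positivity) h3
        have e : 2 * (2 / (q:ℝ)) = 4 / q := by ring
        rwa [e] at h4
  rcases le_or_gt w 1 with h | h
  · exact main w h
  · have := main 1 le_rfl
    rw [ball_univ x (by norm_num)] at this
    rw [ball_univ x (by linarith)]
    exact this

theorem Gq_meas (q i j : ℕ) : MeasurableSet (Gq q i j) := Metric.isOpen_ball.measurableSet

theorem Gq_smooth (q i j : ℕ) : Smoothable (Gq q i j) 2 := smoothable_ball _ _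

theorem ergAv_fB (a : ℝ) (E J : Set UnitAddCircle) {N : ℕ} (hN : 1 ≤ N) (p : T2) :
    ergAv (S a) (fB E J) N p = ergAv (S a) (iB E J) N p - volume.real E * volume.real J := by
  have hN0 : (0:ℝ) < N := by exact_mod_cast hN
  unfold ergAv fB
  rw [Finset.sum_sub_distrib, Finset.sum_const, Finset.card_range, nsmul_eq_mul]
  field_simp

theorem ergAv_iB_mono (a : ℝ) {E J E' J' : Set UnitAddCircle} (hE : E ⊆ E') (hJ : J ⊆ J')
    (N : ℕ) (p : T2) : ergAv (S a) (iB E J) N p ≤ ergAv (S a) (iB E' J') N p := by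
  unfold ergAv
  apply mul_le_mul_of_nonneg_left _ (by positivity)
  apply Finset.sum_le_sum
  intro k _
  rw [iB_eq, iB_eq]
  apply Set.indicator_le_indicator_of_subset (Set.prod_mono hE hJ)
  intro _
  exact zero_le_one

/-- **all boxes of arcs and all large times at once** -/
theorem arcs_all {a : ℝ} (ha : 1 ≤ |a|) {ε : ℝ} (hε : 0 < ε) (hε1 : ε ≤ 1) :
    volume.real {p | ∃ N : ℕ, 32 * √|a| / ε ≤ N ∧ ∃ (x x' : UnitAddCircle) (w w' : ℝ),
      ε < |ergAv (S a) (fB (Metric.ball x w) (Metric.ball x' w')) N p|} ≤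
      3699200 * CE 2 / (ε ^ 6 * √|a|) := by
  have ha0 : 0 < |a| := by linarith
  have hs0 : 0 < √|a| := Real.sqrt_pos.2 ha0
  have hs1 : 1 ≤ √|a| := Real.one_le_sqrt.2 ha
  have hCE := CE_pos (Dv := 2) (by norm_num)
  obtain ⟨q, hqd⟩ : ∃ q, q = ⌈16 / ε⌉₊ := ⟨_, rfl⟩
  have hq16 : 16 / ε ≤ q := by rw [hqd]; exact Nat.le_ceil _
  have hq17 : (q:ℝ) ≤ 17 / ε := by
    have h1 := (Nat.ceil_lt_add_one (by positivity : 0 ≤ 16 / ε)).le
    rw [← hqd] at h1
    have h2 : 1 ≤ 1 / ε := by
      rw [le_div_iff₀ hε]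
      linarith
    have e : 17 / ε = 16 / ε + 1 / ε := by ring
    linarith
  have hq0 : (0:ℝ) < q := lt_of_lt_of_le (by positivity) hq16
  have hq1 : 1 ≤ q := by exact_mod_cast hq0
  set Bad : (ℕ × ℕ) × (ℕ × ℕ) → Set T2 := fun v =>
    {p | ∃ N : ℕ, 16 * √|a| / (ε / 2) ≤ N ∧
      ε / 2 < |ergAv (S a) (fB (Gq q v.1.1 v.1.2) (Gq q v.2.1 v.2.2)) N p|} with hBad
  set I : Finset ((ℕ × ℕ) × (ℕ × ℕ)) :=
    ((Finset.range q) ×ˢ (Finset.range (q + 2))) ×ˢ ((Finset.range q) ×ˢ (Finset.range (q + 2)))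
    with hI
  have hsub : {p | ∃ N : ℕ, 32 * √|a| / ε ≤ N ∧ ∃ (x x' : UnitAddCircle) (w w' : ℝ),
      ε < |ergAv (S a) (fB (Metric.ball x w) (Metric.ball x' w')) N p|} ⊆ ⋃ v ∈ I, Bad v := by
    rintro p ⟨N, hN, x, x', w, w', hp⟩
    by_contra hcon
    simp only [Set.mem_iUnion, not_exists] at hcon
    have hN1 : 1 ≤ N := by
      have h1 : (0:ℝ) < N := lt_of_lt_of_le (by positivity) hN
      exact_mod_cast h1
    have hN2 : 16 * √|a| / (ε / 2) ≤ N := by
      refine le_trans (le_of_eq ?_) hN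
      field_simp
      norm_num
    have hgood : ∀ i j i' j' : ℕ, i < q → j < q + 2 → i' < q → j' < q + 2 →
        |ergAv (S a) (fB (Gq q i j) (Gq q i' j')) N p| ≤ ε / 2 := by
      intro i j i' j' h1 h2 h3 h4
      by_contra h5
      rw [not_le] at h5
      exact hcon ((i, j), (i', j')) (by
        rw [hI]
        simp only [Finset.mem_product, Finset.mem_range]
        exact ⟨⟨h1, h2⟩, ⟨h3, h4⟩⟩) ⟨N, hN2, h5⟩
    obtain ⟨i, hi, j₁, hj₁, j₂, hj₂, g1, g2, g3, g4⟩ := arc_grid x w hq1
    obtain ⟨i', hi', j₁', hj₁', j₂', hj₂', g1', g2', g3', g4'⟩ := arc_grid x' w' hq1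
    have k1 := hgood i j₁ i' j₁' hi hj₁ hi' hj₁'
    have k2 := hgood i j₂ i' j₂' hi hj₂ hi' hj₂'
    rw [ergAv_fB a _ _ hN1] at k1 k2 hp
    have m1 := ergAv_iB_mono a g1 g1' N p
    have m2 := ergAv_iB_mono a g2 g2' N p
    have hd : 4 / (q:ℝ) ≤ ε / 4 := by
      rw [div_le_iff₀ hε] at hq16
      rw [div_le_iff₀ hq0]
      linarith
    have b1 : volume.real (Metric.ball x w) ≤ 1 := measureReal_le_one
    have b1' : volume.real (Metric.ball x' w') ≤ 1 := measureReal_le_one
    have b2 : volume.real (Gq q i j₂) ≤ 1 := measureReal_le_one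
    have b3 : volume.real (Gq q i j₁) ≤ 1 := measureReal_le_one
    have b2' : volume.real (Gq q i' j₂') ≤ 1 := measureReal_le_one
    have b3' : volume.real (Gq q i' j₁') ≤ 1 := measureReal_le_one
    have c1 : 0 ≤ volume.real (Metric.ball x w) := measureReal_nonneg
    have c1' : 0 ≤ volume.real (Metric.ball x' w') := measureReal_nonneg
    have c2 : 0 ≤ volume.real (Gq q i j₂) := measureReal_nonneg
    have c3 : 0 ≤ volume.real (Gq q i j₁) := measureReal_nonneg
    have c2' : 0 ≤ volume.real (Gq q i' j₂') := measureReal_nonneg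
    have c3' : 0 ≤ volume.real (Gq q i' j₁') := measureReal_nonneg
    have u1 : volume.real (Gq q i j₂) * volume.real (Gq q i' j₂') ≤
        volume.real (Metric.ball x w) * volume.real (Metric.ball x' w') + ε / 2 := by
      nlinarith
    have u2 : volume.real (Metric.ball x w) * volume.real (Metric.ball x' w') ≤
        volume.real (Gq q i j₁) * volume.real (Gq q i' j₁') + ε / 2 := by
      nlinarith
    rw [abs_le] at k1 k2
    have : |ergAv (S a) (iB (Metric.ball x w) (Metric.ball x' w')) N p -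
        volume.real (Metric.ball x w) * volume.real (Metric.ball x' w')| ≤ ε := by
      rw [abs_le]
      constructor <;> linarith [k1.1, k2.2]
    linarith
  have hB : ∀ v ∈ I, volume.real (Bad v) ≤ 8 * CE 2 / ((ε / 2) ^ 2 * √|a|) := fun v _ =>
    box_all ha (Gq_meas q v.1.1 v.1.2) (Gq_meas q v.2.1 v.2.2) (by norm_num)
      (Gq_smooth q v.2.1 v.2.2) (by positivity)
  have h1 : volume.real {p | ∃ N : ℕ, 32 * √|a| / ε ≤ N ∧ ∃ (x x' : UnitAddCircle) (w w' : ℝ),
      ε < |ergAv (S a) (fB (Metric.ball x w) (Metric.ball x' w')) N p|} ≤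
      ∑ v ∈ I, volume.real (Bad v) :=
    (measureReal_mono hsub (measure_ne_top _ _)).trans (measureReal_biUnion_finset_le I Bad)
  refine h1.trans ((Finset.sum_le_sum hB).trans ?_)
  rw [Finset.sum_const, nsmul_eq_mul, hI]
  simp only [Finset.card_product, Finset.card_range]
  push_cast
  have hq20 : (q:ℝ) + 2 ≤ 20 / ε := by
    have h2 : 1 ≤ 1 / ε := by
      rw [le_div_iff₀ hε]
      linarith
    have e : 20 / ε = 17 / ε + 3 * (1 / ε) := by ring
    linarith
  have h3 : (q:ℝ) * (q + 2) ≤ 340 / ε ^ 2 := by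
    have := mul_le_mul hq17 hq20 (by positivity) (by positivity)
    refine this.trans (le_of_eq ?_)
    field_simp
    norm_num
  have h4 : (q:ℝ) * (q + 2) * (q * (q + 2)) ≤ (340 / ε ^ 2) * (340 / ε ^ 2) :=
    mul_le_mul h3 h3 (by positivity) (by positivity)
  calc (q:ℝ) * (q + 2) * (q * (q + 2)) * (8 * CE 2 / ((ε / 2) ^ 2 * √|a|)) ≤
      (340 / ε ^ 2) * (340 / ε ^ 2) * (8 * CE 2 / ((ε / 2) ^ 2 * √|a|)) :=
        mul_le_mul_of_nonneg_right h4 (by positivity)
    _ = 3699200 * CE 2 / (ε ^ 6 * √|a|) := by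
      field_simp
      norm_num

end Pool.Agent.N15.SM
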