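import Mathlib
import Pool.Agent.N15.SM.Arc2

set_option autoImplicit false

/-!
# Standard map: boxes in the other order
-/

namespace Pool.Agent.N15.SM

open Real MeasureTheory Function Pool.Agent.TH705.SM Pool.Agent.V1152.SMI Filter Topology
open Pool.Agent.V11103 (ergAv maximal)
open scoped ENNReal

theorem Si_swap (a : ℝ) (p : T2) : Si a p.swap = (S a p).swap := rfl

theorem Si_iter_swap (a : ℝ) (k : ℕ) (p : T2) : (Si a)^[k] p.swap = ((S a)^[k] p).swap := by
  induction k with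
  | zero => rfl
  | succ k ih => rw [iterate_succ_apply', iterate_succ_apply', ih, Si_swap]

theorem swap_mp : MeasurePreserving (Prod.swap : T2 → T2) volume volume := by
  have h : MeasurePreserving (Prod.swap : T2 → T2)
      ((volume : Measure UnitAddCircle).prod volume) ((volume : Measure UnitAddCircle).prod volume) :=
    Measure.measurePreserving_swap
  exact h

theorem Si_mp (a : ℝ) : MeasurePreserving (Si a) volume volume := by
  have h := (swap_mp.comp (S_mp a)).comp swap_mp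
  have e : (Prod.swap ∘ S a) ∘ Prod.swap = Si a := by
    funext p
    show (S a p.swap).swap = Si a p
    rw [← Si_swap, Prod.swap_swap]
  rwa [e] at h

theorem Si_S_iter (a : ℝ) (k : ℕ) (p : T2) : (Si a)^[k] ((S a)^[k] p) = p := by
  induction k with
  | zero => rfl
  | succ k ih => rw [iterate_succ_apply, iterate_succ_apply', Si_S, ih]

theorem fB_corr_Si {a : ℝ} (ha : 1 ≤ |a|) {E J : Set UnitAddCircle} (hE : MeasurableSet E)
    (hJ : MeasurableSet J) {Dv : ℝ} (hD : 0 ≤ Dv) (happ : Smoothable J Dv) {n : ℕ} (k : ℕ)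
    (hk : 3 ≤ k) (hkn : k < n) : |∫ q, fB E J ((Si a)^[k] q) * fB E J q| ≤ BB a Dv n := by
  have h1 := fB_corr ha hE hJ hD happ k hk hkn
  have hm := fB_meas hE hJ
  have e : ∫ q, fB E J ((Si a)^[k] q) * fB E J q = ∫ q, fB E J ((S a)^[k] q) * fB E J q := by
    have h2 := int_comp (S_mp a) k (g := fun q => fB E J ((Si a)^[k] q) * fB E J q)
      ((hm.comp ((Si_mp a).iterate k).measurable).mul hm)
    rw [← h2]
    apply integral_congr_ae
    refine Filter.Eventually.of_forall fun q => ?_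
    simp only
    rw [Si_S_iter]
    ring
  rw [e]
  exact h1

theorem box_L2_Si {a : ℝ} (ha : 1 ≤ |a|) {E J : Set UnitAddCircle} (hE : MeasurableSet E)
    (hJ : MeasurableSet J) {Dv : ℝ} (hD : 0 ≤ Dv) (happ : Smoothable J Dv) {N : ℕ} (hN : 1 ≤ N) :
    ∫ q, ergAv (Si a) (fB E J) N q ^ 2 ≤ CE Dv * (1 / N + 1 / √|a|) := by
  obtain ⟨n, hn1, hn2, hn3⟩ := exists_time ha
  have ha0 : 0 < |a| := by linarith
  have hs0 : 0 < √|a| := Real.sqrt_pos.2 ha0
  have hCD := CD_pos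
  have hN0 : (0:ℝ) < N := by exact_mod_cast hN
  have h1 := second_all (Si_mp a) (fB_meas hE hJ) (fB_abs E J) hn1 (BB_nonneg a hD n)
    (fun k h1 h2 => fB_corr_Si ha hE hJ hD happ k h1 h2) hN
  have h2 := BB_le ha hD hn3
  have h3 : 40 / (n:ℝ) ≤ 40 * (1 / √|a|) := by
    rw [mul_one_div]
    exact div_le_div_of_nonneg_left (by norm_num) hs0 hn2
  refine h1.trans ?_
  unfold CE
  have h4 : 0 ≤ 12 * CD * (1 + Dv) * (1 / (N:ℝ)) := by positivity
  have e : 40 / (N:ℝ) = 40 * (1 / N) := by ring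
  rw [e]
  nlinarith

theorem box_all_Si {a : ℝ} (ha : 1 ≤ |a|) {E J : Set UnitAddCircle} (hE : MeasurableSet E)
    (hJ : MeasurableSet J) {Dv : ℝ} (hD : 0 ≤ Dv) (happ : Smoothable J Dv) {ε : ℝ}
    (hε : 0 < ε) :
    volume.real {p | ∃ N : ℕ, 16 * √|a| / ε ≤ N ∧ ε < |ergAv (Si a) (fB E J) N p|} ≤
      8 * CE Dv / (ε ^ 2 * √|a|) := by
  obtain ⟨n, hn1, hn2, hn3⟩ := exists_time ha
  have ha0 : 0 < |a| := by linarith
  have hs0 : 0 < √|a| := Real.sqrt_pos.2 ha0
  have hn : ∫ q, ergAv (Si a) (fB E J) n q ^ 2 ≤ 2 * CE Dv * (1 / √|a|) := by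
    have h1 := box_L2_Si ha hE hJ hD happ hn1
    have h2 : 1 / (n:ℝ) ≤ 1 / √|a| := one_div_le_one_div_of_le hs0 hn2
    have hC := CE_pos hD
    refine h1.trans ?_
    have := mul_le_mul_of_nonneg_left h2 hC.le
    linarith
  have h1 := all_times (Si_mp a) (fB_meas hE hJ) (M := 2) (by norm_num) (fB_abs E J) hn1 hn hε
  have hsub : {p : T2 | ∃ N : ℕ, 16 * √|a| / ε ≤ N ∧ ε < |ergAv (Si a) (fB E J) N p|} ⊆
      {p : T2 | ∃ N : ℕ, 4 * 2 * (n:ℝ) / ε ≤ N ∧ ε < |ergAv (Si a) (fB E J) N p|} := by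
    rintro p ⟨N, hN, hp⟩
    refine ⟨N, le_trans ?_ hN, hp⟩
    apply div_le_div_of_nonneg_right _ hε.le
    linarith
  refine (measureReal_mono hsub (measure_ne_top _ _)).trans (h1.trans (le_of_eq ?_))
  field_simp
  ring

theorem fB_swap (E J : Set UnitAddCircle) (q : T2) : fB J E q = fB E J q.swap := by
  unfold fB iB
  simp only [Prod.fst_swap, Prod.snd_swap]
  ring

theorem ergAv_swap (a : ℝ) (E J : Set UnitAddCircle) (N : ℕ) (p : T2) :
    ergAv (S a) (fB J E) N p = ergAv (Si a) (fB E J) N p.swap := by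
  unfold ergAv
  congr 1
  apply Finset.sum_congr rfl
  intro k _
  rw [fB_swap, Si_iter_swap]

theorem box_L2' {a : ℝ} (ha : 1 ≤ |a|) {E J : Set UnitAddCircle} (hE : MeasurableSet E)
    (hJ : MeasurableSet J) {Dv : ℝ} (hD : 0 ≤ Dv) (happ : Smoothable J Dv) {N : ℕ} (hN : 1 ≤ N) :
    ∫ q, ergAv (S a) (fB J E) N q ^ 2 ≤ CE Dv * (1 / N + 1 / √|a|) := by
  have h1 := box_L2_Si ha hE hJ hD happ hN
  refine le_trans (le_of_eq ?_) h1
  simp_rw [ergAv_swap]
  have h2 := int_comp swap_mp 1 (g := fun q => ergAv (Si a) (fB E J) N q ^ 2)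
    ((ergAv_meas' (Si_mp a).measurable (fB_meas hE hJ) N).pow_const 2)
  exact h2

theorem box_all' {a : ℝ} (ha : 1 ≤ |a|) {E J : Set UnitAddCircle} (hE : MeasurableSet E)
    (hJ : MeasurableSet J) {Dv : ℝ} (hD : 0 ≤ Dv) (happ : Smoothable J Dv) {ε : ℝ}
    (hε : 0 < ε) :
    volume.real {p | ∃ N : ℕ, 16 * √|a| / ε ≤ N ∧ ε < |ergAv (S a) (fB J E) N p|} ≤
      8 * CE Dv / (ε ^ 2 * √|a|) := by
  have h1 := box_all_Si ha hE hJ hD happ hε
  refine le_trans (le_of_eq ?_) h1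
  have e : {p | ∃ N : ℕ, 16 * √|a| / ε ≤ N ∧ ε < |ergAv (S a) (fB J E) N p|} =
      (MeasurableEquiv.prodComm : T2 ≃ᵐ T2) ⁻¹'
        {p | ∃ N : ℕ, 16 * √|a| / ε ≤ N ∧ ε < |ergAv (Si a) (fB E J) N p|} := by
    ext p
    simp only [Set.mem_setOf_eq, Set.mem_preimage]
    simp_rw [ergAv_swap]
    rfl
  rw [e, measureReal_def, measureReal_def]
  congr 1
  have h2 : MeasurePreserving (MeasurableEquiv.prodComm : T2 ≃ᵐ T2) volume volume := swap_mp
  exact h2.measure_preimage_equiv _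

/-- the bound for the boxes in the other order -/
theorem box_swap2 {a : ℝ} (ha : 1 ≤ |a|) {A : Set T2} (hA : MeasurableSet A)
    (hinv : S a ⁻¹' A = A) {E J : Set UnitAddCircle} (hE : MeasurableSet E)
    (hJ : MeasurableSet J) {Dv : ℝ} (hD0 : 0 ≤ Dv) (happ : Smoothable J Dv) :
    |volume.real (A ∩ (J ×ˢ E)) - volume.real A * (volume.real J * volume.real E)| ≤
      √(2 * CE Dv) * √(min (volume.real A) (1 - volume.real A)) *
        |a| ^ (-(1 / 4) : ℝ) := by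
  have hB := measurable_swap hA
  have h := box_min2 ha hB (swap_inv hinv) hE hJ hD0 happ
  have e1 : (Prod.swap ⁻¹' A) ∩ (E ×ˢ J) = Prod.swap ⁻¹' (A ∩ (J ×ˢ E)) := by
    ext ⟨x, y⟩
    simp only [Set.mem_inter_iff, Set.mem_preimage, Prod.swap_prod_mk, Set.mem_prod]
    tauto
  rw [e1, vol_swap _ (hA.inter (hJ.prod hE)), vol_swap _ hA, mul_comm (volume.real E)] at h
  exact h

end Pool.Agent.N15.SM
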